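import Pool.Agent.R649.BT.EncCore

set_option autoImplicit false

/-!
# Alternating diagrams in a strip and the manifolds `Y`

(The diagrams, the group elements and the maximum principle are those of the starting result
`MP_9ae2f3_gt/EncircledAlternatingLinks`.)

Let `L` be a link with an alternating diagram on the sphere `S`, and `A` an unknotted circle that meets
`S` in two points, in a white and in a black region, which are joined by an arc in `S` crossing three
strands of `L` (so `A` encircles three strands). Let `Y` be the double cover of the exterior of `A`,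
branched along `L`, whose covering involution is nontrivial over the meridian of `A` (and hence also
over the longitude `μ` of `A`, which encircles three strands). The boundary torus of `Y` has the basis
`t, t₁`, the lifts of `meridian * μ⁻¹` and `meridian * μ`.

Crossings may be replaced by arbitrary positive rational tangles `p / q`.

The presentation. Cut the diagram along the arc. This gives a diagram in a strip: along the left side,
from top to bottom, we see the regions `top` (white), `bL` (black), `wL` (white), `bot` (black), along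
the right side `top`, `bR`, `wR`, `bot`. The Dehn presentation, restricted to the even subgroup of the
orbifold group, gives generators for the regions (`top` and `bot` are `1`), and for a crossing with
corners `w₁, b₁, w₂, b₂` in counterclockwise order, where the overpass separates `w₁, b₁` from
`w₂, b₂`, the relation `b₂⁻¹ b₁ = w₁⁻¹ w₂`. For a rational tangle the elements `u = b₂⁻¹ b₁` and
`v = w₁⁻¹ w₂` commute and satisfy `u ^ q = v ^ p`. The two sides of the strip are double covered by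
once-punctured tori with free fundamental groups on `x = top⁻¹ w`, `y = b⁻¹ bot`; the stable letter
`m` conjugates `x, y` on the left side to the inverses of `x, y` on the right side.
-/

namespace Pool.Agent.R649.BT.Alt

open Relation

/-- The corner `(c, false)` of a colour is the first corner of that colour at the crossing `c`, the
corner `(c, true)` is the second one. `cAt v₁ v₂ k` is the region at the corner `k`. -/
def cAt {V C : Type} (v₁ v₂ : C → V) (k : C × Bool) : V := if k.2 then v₂ k.1 else v₁ k.1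

/-- The region of the same colour on the opposite side of the crossing. -/
def cOpp {V C : Type} (v₁ v₂ : C → V) (k : C × Bool) : V := if k.2 then v₁ k.1 else v₂ k.1

/-- The list of corners leads from the neighbouring region `a` to the neighbouring region `b`: each
corner is entered from the neighbour (of the other colour) at which the previous one was left. -/
def Path {E C : Type} (e₁ e₂ : C → E) : E → List (C × Bool) → E → Prop
  | a, [], b => a = b
  | a, k :: l, b => cOpp e₁ e₂ k = a ∧ Path e₁ e₂ (cAt e₁ e₂ k) l b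

/-- Two regions of the same colour are opposite to each other at some crossing. -/
def Adj {V C : Type} (v₁ v₂ : C → V) (a b : V) : Prop :=
  ∃ k : C × Bool, cAt v₁ v₂ k = a ∧ cOpp v₁ v₂ k = b

/-- One colour of the diagram in a strip. `g` is the region along the top (or bottom) side of the
strip, `vL`, `vR` are the regions of this colour at the left and right side, `eg, eL, eR` are the
corresponding regions of the other colour. `star v` is the list of the corners of the region `v` as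
they are met along its boundary (clockwise for the white regions, counterclockwise for the black
ones). -/
structure Colour {V E C : Type} (v₁ v₂ : C → V) (e₁ e₂ : C → E) (g vL vR : V) (eg eL eR : E)
    (star : V → List (C × Bool)) : Prop where
  mem : ∀ v k, k ∈ star v ↔ cAt v₁ v₂ k = v
  nodup : ∀ v, (star v).Nodup
  inner : ∀ v, v ≠ g → v ≠ vL → v ≠ vR → ∃ a, Path e₁ e₂ a (star v) a
  ground : Path e₁ e₂ eR (star g) eL
  left : Path e₁ e₂ eL (star vL) eg
  right : Path e₁ e₂ eg (star vR) eR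
  /-- the checkerboard graph is connected -/
  conn : ∀ v, ReflTransGen (Adj v₁ v₂) v g
  /-- no arc in the strip from top to bottom crosses only one strand -/
  link : ReflTransGen (fun a b => Adj v₁ v₂ a b ∧ a ≠ g ∧ b ≠ g) vL vR

/-- A checkerboard coloured alternating diagram in a strip with three strands at the left side and
three strands at the right side; each crossing `c` stands for the rational tangle `p c / q c`. -/
structure Diagram where
  /-- white regions -/
  W : Type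
  /-- black regions -/
  B : Type
  /-- crossings -/
  C : Type
  finW : Finite W
  finB : Finite B
  /-- the corners of a crossing are `w₁, b₁, w₂, b₂`, in counterclockwise order -/
  w₁ : C → W
  b₁ : C → B
  w₂ : C → W
  b₂ : C → B
  p : C → ℕ
  q : C → ℕ
  p_pos : ∀ c, 1 ≤ p c
  q_pos : ∀ c, 1 ≤ q c
  /-- the regions at the sides of the strip -/
  top : W
  bL : B
  wL : W
  bot : B
  bR : B
  wR : W
  starW : W → List (C × Bool)
  starB : B → List (C × Bool)
  white : Colour w₁ w₂ b₁ b₂ top wL wR bot bL bR starW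
  black : Colour b₁ b₂ w₁ w₂ bot bL bR top wL wR starB

namespace Diagram

variable (D : Diagram)

/-- Generators: the regions and the stable letter. -/
abbrev Gen : Type := D.W ⊕ D.B ⊕ Unit

/-- the generator of a white region -/
def w (v : D.W) : FreeGroup D.Gen := FreeGroup.of (Sum.inl v)

/-- the generator of a black region -/
def b (v : D.B) : FreeGroup D.Gen := FreeGroup.of (Sum.inr (Sum.inl v))

/-- the stable letter -/
def m : FreeGroup D.Gen := FreeGroup.of (Sum.inr (Sum.inr ()))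

/-- `b₂⁻¹ b₁` at the crossing `c` -/
def u (c : D.C) : FreeGroup D.Gen := (D.b (D.b₂ c))⁻¹ * D.b (D.b₁ c)

/-- `w₁⁻¹ w₂` at the crossing `c` -/
def v (c : D.C) : FreeGroup D.Gen := (D.w (D.w₁ c))⁻¹ * D.w (D.w₂ c)

def xL : FreeGroup D.Gen := (D.w D.top)⁻¹ * D.w D.wL
def yL : FreeGroup D.Gen := (D.b D.bL)⁻¹ * D.b D.bot
def xR : FreeGroup D.Gen := (D.w D.top)⁻¹ * D.w D.wR
def yR : FreeGroup D.Gen := (D.b D.bR)⁻¹ * D.b D.bot

/-- the two peripheral elements -/
def t : FreeGroup D.Gen := D.yR⁻¹ * D.xR * D.m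
def t₁ : FreeGroup D.Gen := D.xR * D.yR⁻¹ * D.m

/-- The relators of the fundamental group of `Y`. (The last one says that the peripheral elements
`t, t₁` commute.) -/
def relators : Set (FreeGroup D.Gen) :=
  {r | r = D.w D.top ∨ r = D.b D.bot ∨
    (∃ c, r = D.u c * D.v c * (D.u c)⁻¹ * (D.v c)⁻¹ ∨ r = D.u c ^ D.q c * (D.v c ^ D.p c)⁻¹) ∨
    r = D.m * D.xL * D.m⁻¹ * D.xR ∨ r = D.m * D.yL * D.m⁻¹ * D.yR ∨
    r = D.t * D.t₁ * D.t⁻¹ * D.t₁⁻¹}

end Diagram

open Pool.Agent.TH335.LS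

section proof

/-- telescoping along a path -/
theorem path_prod {H : Type*} [Group H] {E C : Type} {e₁ e₂ : C → E} (F : E → H) :
    ∀ (l : List (C × Bool)) (a b : E), Path e₁ e₂ a l b →
      (l.map fun k => (F (cOpp e₁ e₂ k))⁻¹ * F (cAt e₁ e₂ k)).prod = (F a)⁻¹ * F b
  | [], a, b, h => by
    have h' : a = b := h
    simp [h']
  | k :: l, a, b, h => by
    obtain ⟨h1, h2⟩ : cOpp e₁ e₂ k = a ∧ Path e₁ e₂ (cAt e₁ e₂ k) l b := h
    rw [List.map_cons, List.prod_cons, path_prod F l _ b h2, h1]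
    group

/-- One colour at one point. -/
theorem colour_ports {X : Type*} {H : Type*} [Group H] [CompleteLinearOrder X] (ρ : Act H X)
    {V E C : Type} [Finite V] {v₁ v₂ : C → V} {e₁ e₂ : C → E} {g vL vR : V} {eg eL eR : E}
    {star : V → List (C × Bool)} (hc : Colour v₁ v₂ e₁ e₂ g vL vR eg eL eR star)
    (ev : V → H) (ee : E → H) {p q : C → ℕ} (hp : ∀ c, 1 ≤ p c) (hq : ∀ c, 1 ≤ q c)
    (hrel : ∀ c, ((ee (e₂ c))⁻¹ * ee (e₁ c)) ^ q c = ((ev (v₁ c))⁻¹ * ev (v₂ c)) ^ p c) (r : X) :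
    (ρ.f (ev g) r ≤ ρ.f (ev vL) r → r ≤ ρ.f ((ee eL)⁻¹ * ee eg) r →
      ρ.f (ev g) r ≤ ρ.f (ev vR) r) ∧
    (ρ.f (ev g) r ≤ ρ.f (ev vR) r → r ≤ ρ.f ((ee eg)⁻¹ * ee eR) r →
      ρ.f (ev g) r ≤ ρ.f (ev vL) r) ∧
    (ρ.f (ev vL) r ≤ ρ.f (ev g) r → ρ.f (ev vR) r ≤ ρ.f (ev g) r → ∀ n,
      ρ.f (ev n) r ≤ ρ.f (ev g) r) := by
  have hk : ∀ k : C × Bool, ∃ a b : ℕ, 1 ≤ a ∧ 1 ≤ b ∧
      ((ee (cOpp e₁ e₂ k))⁻¹ * ee (cAt e₁ e₂ k)) ^ b =
        ((ev (cAt v₁ v₂ k))⁻¹ * ev (cOpp v₁ v₂ k)) ^ a := by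
    rintro ⟨c, s⟩
    refine ⟨p c, q c, hp c, hq c, ?_⟩
    cases s
    · exact hrel c
    · have h1 := congrArg (fun z => z⁻¹) (hrel c)
      simp only [← inv_pow, mul_inv_rev, inv_inv] at h1
      exact h1
  have net : Net ρ star (cOpp v₁ v₂)
      (fun k => (ee (cOpp e₁ e₂ k))⁻¹ * ee (cAt e₁ e₂ k)) (fun n => ρ.f (ev n) r) r := by
    refine ⟨fun n k hkn h => ?_, fun n k hkn h => ?_, fun n k hkn h => ?_⟩
    · obtain ⟨a, b, ha, hb, hab⟩ := hk k
      have hat := (hc.mem n k).mp hkn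
      refine ρ.dir_le hb hab ?_
      rw [ρ.inv_mul_le, hat]; exact h
    · obtain ⟨a, b, ha, hb, hab⟩ := hk k
      have hat := (hc.mem n k).mp hkn
      refine ρ.dir_ge hb hab ?_
      rw [ρ.le_inv_mul, hat]; exact h
    · obtain ⟨a, b, ha, hb, hab⟩ := hk k
      have hat := (hc.mem n k).mp hkn
      have h1 := le_antisymm (ρ.dir_le ha hab.symm h.le) (ρ.dir_ge ha hab.symm h.ge)
      rw [ρ.inv_mul_eq, hat] at h1
      exact h1
  have hstep : ∀ a b, Adj v₁ v₂ a b → ∃ k ∈ star a, cOpp v₁ v₂ k = b := by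
    rintro a b ⟨k, h1, h2⟩
    exact ⟨k, (hc.mem a k).mpr h1, h2⟩
  have conn : ∀ n, ReflTransGen (fun a b => ∃ k ∈ star a, cOpp v₁ v₂ k = b) n g :=
    fun n => ReflTransGen.mono (fun a b h => hstep a b h) _ _ (hc.conn n)
  have inner : ∀ n, n ≠ g → n ≠ vL → n ≠ vR →
      ((star n).map fun k => (ee (cOpp e₁ e₂ k))⁻¹ * ee (cAt e₁ e₂ k)).prod = 1 := by
    intro n h1 h2 h3
    obtain ⟨a, ha⟩ := hc.inner n h1 h2 h3
    rw [path_prod ee _ _ _ ha, inv_mul_cancel]
  have adj_symm : ∀ a b, Adj v₁ v₂ a b → Adj v₁ v₂ b a := by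
    rintro a b ⟨⟨c, s⟩, h1, h2⟩
    refine ⟨(c, !s), ?_, ?_⟩ <;> cases s <;> simp_all [cAt, cOpp]
  refine ⟨fun h1 h2 => ?_, fun h1 h2 => ?_, fun h1 h2 n => ?_⟩
  · refine net.port (p := vL) (q := vR) ρ inner conn ?_ ?_ h1
    · exact ReflTransGen.mono (fun a b h => ⟨hstep a b h.1, h.2.2⟩) _ _ hc.link
    · rw [path_prod ee _ _ _ hc.left]; exact h2
  · refine net.port (p := vR) (q := vL) ρ (fun n h3 h4 h5 => inner n h3 h5 h4) conn ?_ ?_ h1
    · have h3 : ReflTransGen (fun a b => Adj v₁ v₂ a b ∧ a ≠ g ∧ b ≠ g) vR vL := by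
        have h4 := ReflTransGen.swap _ _ hc.link
        exact ReflTransGen.mono (fun a b h => ⟨adj_symm _ _ h.1, h.2.2, h.2.1⟩) _ _ h4
      exact ReflTransGen.mono (fun a b h => ⟨hstep a b h.1, h.2.2⟩) _ _ h3
    · rw [path_prod ee _ _ _ hc.right]; exact h2
  · exact net.le_ground ρ inner conn h1 h2 n


/-- The pointwise statements, from the relations in a group acting on a complete linear order. -/
theorem esys_of_diagram {X H : Type*} [Group H] [CompleteLinearOrder X] (ρ : Act H X)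
    (D : Diagram) (W : D.W → H) (B : D.B → H) (m : H)
    (hrel : ∀ c, ((B (D.b₂ c))⁻¹ * B (D.b₁ c)) ^ D.q c =
      ((W (D.w₁ c))⁻¹ * W (D.w₂ c)) ^ D.p c)
    (hx : m * ((W D.top)⁻¹ * W D.wL) * m⁻¹ * ((W D.top)⁻¹ * W D.wR) = 1)
    (hy : m * ((B D.bL)⁻¹ * B D.bot) * m⁻¹ * ((B D.bR)⁻¹ * B D.bot) = 1) :
    ESys (ρ.f ((W D.top)⁻¹ * W D.wL)) (ρ.f ((B D.bL)⁻¹ * B D.bot))
      (ρ.f ((W D.top)⁻¹ * W D.wR)) (ρ.f ((B D.bR)⁻¹ * B D.bot)) (ρ.f m)
      (ρ.f (((B D.bR)⁻¹ * B D.bot)⁻¹ * ((W D.top)⁻¹ * W D.wR) * m))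
      (ρ.f (((W D.top)⁻¹ * W D.wR) * ((B D.bR)⁻¹ * B D.bot)⁻¹ * m)) ∧
    ∀ r, ρ.f ((W D.top)⁻¹ * W D.wL) r = r → ρ.f ((B D.bL)⁻¹ * B D.bot) r = r →
      ρ.f ((W D.top)⁻¹ * W D.wR) r = r → ρ.f ((B D.bR)⁻¹ * B D.bot) r = r →
      (∀ n, ρ.f (W n) r = ρ.f (W D.top) r) ∧ (∀ n, ρ.f (B n) r = ρ.f (B D.bot) r) := by
  have := D.finW
  have := D.finB
  have hrelB : ∀ c, ((W (D.w₂ c))⁻¹ * W (D.w₁ c)) ^ D.p c =
      ((B (D.b₁ c))⁻¹ * B (D.b₂ c)) ^ D.q c := by
    intro c
    have h1 := congrArg (fun z => z⁻¹) (hrel c)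
    simp only [← inv_pow, mul_inv_rev, inv_inv] at h1
    exact h1.symm
  have cW := fun r => colour_ports ρ D.white W B D.p_pos D.q_pos hrel r
  have cB := fun r => colour_ports ρ D.black B W D.q_pos D.p_pos hrelB r
  have cW' := fun r => colour_ports ρ.dual D.white W B D.p_pos D.q_pos hrel r
  have cB' := fun r => colour_ports ρ.dual D.black B W D.q_pos D.p_pos hrelB r
  set xL := (W D.top)⁻¹ * W D.wL with hxL
  set yL := (B D.bL)⁻¹ * B D.bot with hyL
  set xR := (W D.top)⁻¹ * W D.wR with hxR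
  set yR := (B D.bR)⁻¹ * B D.bot with hyR
  set t := yR⁻¹ * xR * m with htt
  set t₁ := xR * yR⁻¹ * m with htt1
  -- reformulations
  have eW1 : (W D.wL)⁻¹ * W D.top = xL⁻¹ := by rw [hxL]; group
  have eW2 : (B D.bot)⁻¹ * B D.bR = yR⁻¹ := by rw [hyR]; group
  have hmx : xR * (m * xL) = m := by
    have h2 : m * xL * m⁻¹ = xR⁻¹ := mul_eq_one_iff_eq_inv.mp hx
    have h3 : m * xL = xR⁻¹ * m := by rw [← h2]; group
    rw [h3]; group
  have hmy : yR * (m * yL) = m := by
    have h2 : m * yL * m⁻¹ = yR⁻¹ := mul_eq_one_iff_eq_inv.mp hy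
    have h3 : m * yL = yR⁻¹ * m := by rw [← h2]; group
    rw [h3]; group
  refine ⟨?_, ?_⟩
  · refine ⟨?_, ?_, ?_, ?_, ?_, ?_, ?_, ?_⟩
    · intro r
      rw [← ρ.mul, ← ρ.mul, mul_assoc, hmx]
    · intro r
      rw [← ρ.mul, ← ρ.mul, mul_assoc, hmy]
    · intro r h1 h2
      constructor
      · exact (ρ.le_inv_mul _ _ _).mpr ((cW r).1 ((ρ.le_inv_mul _ _ _).mp h1) h2)
      · refine (ρ.le_inv_mul _ _ _).mpr ((cB' r).1 ((ρ.le_inv_mul _ _ _).mp h2) ?_)
        show ρ.f ((W D.wL)⁻¹ * W D.top) r ≤ r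
        rw [eW1, ρ.inv_le]; exact h1
    · intro r h1 h2
      constructor
      · exact (ρ.inv_mul_le _ _ _).mpr ((cW' r).1 ((ρ.inv_mul_le _ _ _).mp h1) h2)
      · refine (ρ.inv_mul_le _ _ _).mpr ((cB r).1 ((ρ.inv_mul_le _ _ _).mp h2) ?_)
        rw [eW1, ρ.le_inv]; exact h1
    · intro r h1 h2
      constructor
      · refine (ρ.le_inv_mul _ _ _).mpr ((cW r).2.1 ((ρ.le_inv_mul _ _ _).mp h1) ?_)
        rw [eW2, ρ.le_inv]; exact h2
      · exact (ρ.inv_mul_le _ _ _).mpr ((cB r).2.1 ((ρ.inv_mul_le _ _ _).mp h2) h1)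
    · intro r h1 h2
      constructor
      · refine (ρ.inv_mul_le _ _ _).mpr ((cW' r).2.1 ((ρ.inv_mul_le _ _ _).mp h1) ?_)
        show ρ.f ((B D.bot)⁻¹ * B D.bR) r ≤ r
        rw [eW2, ρ.inv_le]; exact h2
      · exact (ρ.le_inv_mul _ _ _).mpr ((cB' r).2.1 ((ρ.le_inv_mul _ _ _).mp h2) h1)
    · intro r
      rw [← ρ.mul, ← ρ.mul]
      congr 2
      rw [htt]; group
    · intro r s hs
      rw [htt1, ρ.mul, ρ.mul, ← hs, ρ.inv_self]
  · intro r t1 t2 t4 t5
    rw [hxL, ρ.inv_mul_eq] at t1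
    rw [hyL, ρ.inv_mul_eq] at t2
    rw [hxR, ρ.inv_mul_eq] at t4
    rw [hyR, ρ.inv_mul_eq] at t5
    refine ⟨fun n => le_antisymm ?_ ?_, fun n => le_antisymm ?_ ?_⟩
    · exact (cW r).2.2 t1.le t4.le n
    · exact (cW' r).2.2 t1.ge t4.ge n
    · exact (cB r).2.2 t2.ge t5.ge n
    · exact (cB' r).2.2 t2.le t5.le n

end proof

end Pool.Agent.R649.BT.Alt
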