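import Pool.Agent.R649.BT.Alt

set_option autoImplicit false

/-!
# The building blocks

`Block.bor`: the exterior of the Borromean rings; `Block.seif k`: the product of the circle and a
sphere with `k + 3` holes; `Block.alt D`: the manifold `Y` of an alternating diagram `D` with an
encircled triple of strands (`Pool.Agent.R649.BT.Alt`). For each boundary torus `i` we give two
commuting elements `x i`, `e i` of the fundamental group which form a basis of the fundamental group
of the torus.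
-/

namespace Pool.Agent.R649.BT

open Pool.Agent.W705.Borr (Dom Sys)
open Pool.Agent.R649.BT.Alt (Diagram)

universe u

/-- A group presentation with pairs of marked words, one pair for each boundary torus
`0, ..., m`. -/
structure Block : Type 1 where
  m : ℕ
  gen : Type
  rel : Set (FreeGroup gen)
  x : Fin (m + 1) → FreeGroup gen
  e : Fin (m + 1) → FreeGroup gen

/-- The boundary tori. -/
abbrev Block.Tori (K : Block) : Type := Fin (K.m + 1)

namespace Block

/-- Borromean rings: the meridians of the two arcs of circle `i` in the standard diagram of the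
Borromean rings by three round circles, any two of which meet in one point inside and one point
outside the third circle, such that circle `i + 2` passes over circle `i` at both crossings.
`arc i false` belongs to the arc through the outer crossing with circle `i + 1`, `arc i true` to
the arc through the inner crossing with circle `i + 1`. -/
def arc (i : Fin 3) (b : Bool) : FreeGroup (Fin 3 × Bool) := FreeGroup.of (i, b)

/-- Borromean rings: the (preferred, 0-framed) longitude of circle `i` that starts on the arc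
`arc i false`; it passes under the inner and then under the outer arc of circle `i + 2`, with
opposite signs. -/
def longitude (i : Fin 3) : FreeGroup (Fin 3 × Bool) :=
  arc (i + 2) true * (arc (i + 2) false)⁻¹

/-- Borromean rings: the Wirtinger relators of the crossings of circle `i + 2` and circle `i`. -/
def borRel : Set (FreeGroup (Fin 3 × Bool)) :=
  {w | ∃ i : Fin 3,
      w = (arc (i + 2) true)⁻¹ * arc i false * arc (i + 2) true * (arc i true)⁻¹ ∨
      w = arc (i + 2) false * arc i true * (arc (i + 2) false)⁻¹ * (arc i false)⁻¹}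

/-- The exterior of the Borromean rings; the marked words are the inverse of the meridian and
its product with the longitude. -/
@[reducible] def bor : Block where
  m := 2
  gen := Fin 3 × Bool
  rel := borRel
  x := fun i => (arc i false)⁻¹
  e := fun i => (arc i false)⁻¹ * longitude i

/-- The boundary curves of the sphere with `k + 3` holes. -/
def c {k : ℕ} (i : Fin (k + 3)) : FreeGroup (Fin (k + 3) ⊕ Unit) := FreeGroup.of (Sum.inl i)

/-- The fibre. -/
def h {k : ℕ} : FreeGroup (Fin (k + 3) ⊕ Unit) := FreeGroup.of (Sum.inr ())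

/-- The fibre is central and the product of the boundary curves is `1`. -/
def seifRel (k : ℕ) : Set (FreeGroup (Fin (k + 3) ⊕ Unit)) :=
  {w | (∃ i : Fin (k + 3), w = h * c i * h⁻¹ * (c i)⁻¹) ∨ w = (List.ofFn (c (k := k))).prod}

/-- The product of the circle and a sphere with `k + 3` holes; the marked words are the fibre and
the inverse of the boundary curve. -/
@[reducible] def seif (k : ℕ) : Block where
  m := k + 2
  gen := Fin (k + 3) ⊕ Unit
  rel := seifRel k
  x := fun _ => h
  e := fun i => (c i)⁻¹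

/-- The manifold `Y` of an alternating diagram with an encircled triple of strands. -/
@[reducible] def alt (D : Diagram) : Block where
  m := 0
  gen := D.Gen
  rel := D.relators
  x := fun _ => D.t
  e := fun _ => D.t₁

end Block

section caps
variable {X : Type u} [CompleteLinearOrder X]

/-- `x` and `e` commute and do not move a point in the same direction. -/
structure Cap (x e : X ≃o X) : Prop where
  comm : ∀ v, x (e v) = e (x v)
  up : ∀ v, v < x v → e v ≤ v
  down : ∀ v, x v < v → v ≤ e v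
  fix : ∀ v, x v = v → e v = v

/-- `x` and `e` commute and move the same points, in opposite directions. -/
structure SCap (x e : X ≃o X) : Prop where
  comm : ∀ v, x (e v) = e (x v)
  up : ∀ v, v < x v → e v < v
  down : ∀ v, x v < v → v < e v
  fix : ∀ v, x v = v → e v = v

theorem SCap.cap {x e : X ≃o X} (h : SCap x e) : Cap x e :=
  ⟨h.comm, fun v hv => (h.up v hv).le, fun v hv => (h.down v hv).le, h.fix⟩

theorem SCap.dual {x e : X ≃o X} (h : SCap x e) : SCap (X := Xᵒᵈ) x.dual e.dual :=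
  ⟨h.comm, h.down, h.up, h.fix⟩

theorem Cap.dual {x e : X ≃o X} (h : Cap x e) : Cap (X := Xᵒᵈ) x.dual e.dual :=
  ⟨h.comm, h.down, h.up, h.fix⟩

theorem Cap.dom {x e : X ≃o X} (h : Cap x e) : Dom x (x⁻¹ * e) := by
  have k : ∀ v, x ((x⁻¹ * e) v) = e v := fun v => x.apply_symm_apply (e v)
  refine ⟨fun v => ?_, fun v hv => ?_, fun v hv => ?_, fun v hv => ?_⟩
  · rw [k]
    show _ = x⁻¹ (e (x v))
    rw [← h.comm]
    exact (x.symm_apply_apply (e v)).symm
  · rw [k]; exact h.up v hv
  · rw [k]; exact h.down v hv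
  · rw [← x.injective.eq_iff, k, h.fix v hv, hv]

theorem Cap.of_dom {x a : X ≃o X} (h : Dom x a) : Cap x (x * a) := by
  refine ⟨fun v => ?_, fun v hv => h.up v hv, fun v hv => h.down v hv, fun v hv => ?_⟩
  · show x (x (a v)) = x (a (x v))
    rw [h.comm]
  · show x (a v) = v
    rw [h.fix v hv, hv]

end caps

/-! ### The Borromean rings -/

section bor
variable {G : Type} [Group G] {x y z a b c : G} {X : Type u} [CompleteLinearOrder X]

theorem Bor.rels (h : Bor G x y z a b c) (ρ : G →* (X ≃o X)) :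
    (∀ v, ρ y (ρ a (ρ z v)) = ρ z (ρ y v)) ∧ (∀ v, ρ z (ρ b (ρ x v)) = ρ x (ρ z v)) ∧
      (∀ v, ρ x (ρ c (ρ y v)) = ρ y (ρ x v)) := by
  refine ⟨fun v => ?_, fun v => ?_, fun v => ?_⟩
  · have := congrArg (fun g => ρ g v) h.r1
    simp only [map_mul] at this
    exact this
  · have := congrArg (fun g => ρ g v) h.r2
    simp only [map_mul] at this
    exact this
  · have := congrArg (fun g => ρ g v) h.r3
    simp only [map_mul] at this
    exact this

end bor

/-- The properties of a block: the boundary tori are commutative; a common fixed point of the torus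
`0` is a global fixed point if the other tori are capped; if all tori are capped then the action is
trivial. -/
structure BlockOK {m : ℕ} {γ : Type} (R : Set (FreeGroup γ)) (x e : Fin (m + 1) → FreeGroup γ)
    (strict : Prop) : Prop where
  comm : ∀ i, Commute (PresentedGroup.mk R (x i)) (PresentedGroup.mk R (e i))
  opn : ∀ (X : Type u) [CompleteLinearOrder X] (ρ : PresentedGroup R →* (X ≃o X)),
    (∀ i, i ≠ 0 → Cap (ρ (PresentedGroup.mk R (x i))) (ρ (PresentedGroup.mk R (e i)))) → ∀ p,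
      ρ (PresentedGroup.mk R (x 0)) p = p → ρ (PresentedGroup.mk R (e 0)) p = p →
        ∀ g, ρ g p = p
  closed : ∀ (X : Type u) [CompleteLinearOrder X] (ρ : PresentedGroup R →* (X ≃o X)),
    Cap (ρ (PresentedGroup.mk R (x 0))) (ρ (PresentedGroup.mk R (e 0))) →
    (∀ i, i ≠ 0 → Cap (ρ (PresentedGroup.mk R (x i))) (ρ (PresentedGroup.mk R (e i)))) →
    (strict → ∀ i, i ≠ 0 → SCap (ρ (PresentedGroup.mk R (x i)))
      (ρ (PresentedGroup.mk R (e i)))) → ∀ g p, ρ g p = p

/-- A point fixed by the generators is fixed by the group. -/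
theorem fix_gens {γ : Type} {R : Set (FreeGroup γ)} {X : Type u} [CompleteLinearOrder X]
    (ρ : PresentedGroup R →* (X ≃o X)) {p : X}
    (h : ∀ g, ρ (PresentedGroup.mk R (FreeGroup.of g)) p = p) (g : PresentedGroup R) :
    ρ g p = p := by
  let K : Subgroup (PresentedGroup R) := (MulAction.stabilizer (X ≃o X) p).comap ρ
  suffices h : K = ⊤ by
    have : g ∈ K := by rw [h]; exact Subgroup.mem_top g
    exact this
  rw [eq_top_iff, ← PresentedGroup.closure_range_of, Subgroup.closure_le]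
  rintro _ ⟨g, rfl⟩
  exact h g

theorem fixg {X : Type u} [CompleteLinearOrder X] {g : X ≃o X} {p : X} (h : g⁻¹ p = p) :
    g p = p := by
  have h1 : g (g⁻¹ p) = p := g.apply_symm_apply p
  rwa [h] at h1

namespace BorOK

/-- The class of a word. -/
abbrev mkb : FreeGroup (Fin 3 × Bool) →* PresentedGroup Block.borRel :=
  PresentedGroup.mk Block.borRel

/-- The class of the inner arc of circle `i`. -/
def xx (i : Fin 3) : PresentedGroup Block.borRel := mkb (Block.arc i true)

/-- The conjugate of the longitude that commutes with `xx i`. -/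
def aa (i : Fin 3) : PresentedGroup Block.borRel :=
  xx (i + 1) * (xx (i + 2))⁻¹ * (xx (i + 1))⁻¹ * xx (i + 2)

theorem mer_eq (i : Fin 3) : mkb (Block.arc i false) =
    xx (i + 2) * xx i * (xx (i + 2))⁻¹ := by
  have h : mkb ((Block.arc (i + 2) true)⁻¹ * Block.arc i false *
      Block.arc (i + 2) true * (Block.arc i true)⁻¹) = 1 :=
    PresentedGroup.one_of_mem ⟨i, Or.inl rfl⟩
  rw [map_mul, map_mul, map_mul, map_inv, map_inv, mul_inv_eq_one] at h
  show _ = mkb (Block.arc (i + 2) true) * mkb (Block.arc i true) *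
    (mkb (Block.arc (i + 2) true))⁻¹
  rw [← h]; group

theorem idx (i : Fin 3) : i + 2 + 2 = i + 1 := by revert i; decide

theorem lon_eq (i : Fin 3) : mkb (Block.longitude i) =
    xx (i + 2) * aa i * (xx (i + 2))⁻¹ := by
  unfold Block.longitude
  have h0 : mkb (Block.arc (i + 2) true * (Block.arc (i + 2) false)⁻¹) =
      xx (i + 2) * (mkb (Block.arc (i + 2) false))⁻¹ := by
    rw [map_mul, map_inv]; rfl
  rw [h0, mer_eq, idx]
  unfold aa
  group

theorem comm_xa (i : Fin 3) : Commute (xx i) (aa i) := by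
  have h : mkb (Block.arc (i + 2) false * Block.arc i true *
      (Block.arc (i + 2) false)⁻¹ * (Block.arc i false)⁻¹) = 1 :=
    PresentedGroup.one_of_mem ⟨i, Or.inr rfl⟩
  rw [map_mul, map_mul, map_mul, map_inv, map_inv, mul_inv_eq_one, mer_eq, mer_eq, idx] at h
  change xx (i + 1) * xx (i + 2) * (xx (i + 1))⁻¹ * xx i *
    (xx (i + 1) * xx (i + 2) * (xx (i + 1))⁻¹)⁻¹ = _ at h
  unfold aa
  generalize xx i = u at h ⊢
  generalize xx (i + 1) = v at h ⊢
  generalize xx (i + 2) = w at h ⊢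
  have h1 : v * w * v⁻¹ * u = w * u * w⁻¹ * (v * w * v⁻¹) := by
    rw [← h]; group
  have h2 : (v * w⁻¹ * v⁻¹ * w) * u = u * (v * w⁻¹ * v⁻¹ * w) := by
    have h3 : (v * w * v⁻¹)⁻¹ * (v * w * v⁻¹ * u) * (v * w * v⁻¹)⁻¹ * w
        = (v * w * v⁻¹)⁻¹ * (w * u * w⁻¹ * (v * w * v⁻¹)) * (v * w * v⁻¹)⁻¹ * w := by
      rw [h1]
    calc (v * w⁻¹ * v⁻¹ * w) * u
        = (v * w * v⁻¹)⁻¹ * (w * u * w⁻¹ * (v * w * v⁻¹)) * (v * w * v⁻¹)⁻¹ * w := by group
      _ = (v * w * v⁻¹)⁻¹ * (v * w * v⁻¹ * u) * (v * w * v⁻¹)⁻¹ * w := h3.symm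
      _ = u * (v * w⁻¹ * v⁻¹ * w) := by group
  exact h2.symm

theorem bor : Bor (PresentedGroup Block.borRel) (xx 0)⁻¹ (xx 1)⁻¹ (xx 2)⁻¹ (aa 0) (aa 1)
    (aa 2) := by
  refine ⟨(comm_xa 0).inv_left, ?_, ?_, ?_⟩
  · show _ * (xx 1 * (xx 2)⁻¹ * (xx 1)⁻¹ * xx 2 * _) = _
    group
  · show _ * (xx 2 * (xx 0)⁻¹ * (xx 2)⁻¹ * xx 0 * _) = _
    group
  · show _ * (xx 0 * (xx 1)⁻¹ * (xx 0)⁻¹ * xx 1 * _) = _
    group

theorem x_eq (i : Fin 3) : mkb (Block.bor.x i) =
    xx (i + 2) * (xx i)⁻¹ * (xx (i + 2))⁻¹ := by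
  show mkb (Block.arc i false)⁻¹ = _
  rw [map_inv, mer_eq]; group

theorem e_eq (i : Fin 3) : mkb (Block.bor.e i) =
    xx (i + 2) * ((xx i)⁻¹ * aa i) * (xx (i + 2))⁻¹ := by
  show mkb ((Block.arc i false)⁻¹ * Block.longitude i) = _
  rw [map_mul, map_inv, mer_eq, lon_eq]; group

theorem dom {X : Type u} [CompleteLinearOrder X]
    (ρ : PresentedGroup Block.borRel →* (X ≃o X)) (i : Fin 3)
    (h : Cap (ρ (mkb (Block.bor.x i))) (ρ (mkb (Block.bor.e i)))) :
    Dom (ρ (xx i)⁻¹) (ρ (aa i)) := by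
  have h1 := dom_conj h.dom (ρ (xx (i + 2)))⁻¹
  rw [x_eq, e_eq] at h1
  have e1 : (ρ (xx (i + 2)))⁻¹ * ρ (xx (i + 2) * (xx i)⁻¹ * (xx (i + 2))⁻¹) *
      (ρ (xx (i + 2)))⁻¹⁻¹ = ρ (xx i)⁻¹ := by
    rw [← map_inv, ← map_inv, ← map_mul, ← map_mul]
    congr 1; group
  have e2 : (ρ (xx (i + 2)))⁻¹ * ((ρ (xx (i + 2) * (xx i)⁻¹ * (xx (i + 2))⁻¹))⁻¹ *
      ρ (xx (i + 2) * ((xx i)⁻¹ * aa i) * (xx (i + 2))⁻¹)) * (ρ (xx (i + 2)))⁻¹⁻¹ =
      ρ (aa i) := by
    rw [← map_inv, ← map_inv, ← map_inv, ← map_mul, ← map_mul, ← map_mul]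
    congr 1; group
  rwa [e1, e2] at h1

/-- A point fixed by the inner arcs is fixed by the group. -/
theorem gens {X : Type u} [CompleteLinearOrder X]
    (ρ : PresentedGroup Block.borRel →* (X ≃o X)) {p : X}
    (h : ∀ i, ρ (xx i)⁻¹ p = p) (g : PresentedGroup Block.borRel) : ρ g p = p := by
  have hx : ∀ i, ρ (xx i) p = p := fun i => by
    have := h i
    rw [map_inv] at this
    exact fixg this
  refine fix_gens ρ ?_ g
  rintro ⟨i, _ | _⟩
  · show ρ (mkb (Block.arc i false)) p = p
    rw [mer_eq, map_mul, map_mul]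
    show ρ _ (ρ _ (ρ _ p)) = p
    rw [h, hx, hx]
  · exact hx i

theorem ok : BlockOK.{u} (m := 2) Block.bor.rel Block.bor.x Block.bor.e False := by
  refine ⟨fun (i : Fin 3) => ?_, fun X _ ρ hc p hx he => ?_, fun X _ ρ h0 hc _ g p => ?_⟩
  · have h := (comm_xa i).eq
    show Commute (mkb (Block.bor.x i)) (mkb (Block.bor.e i))
    rw [x_eq, e_eq]
    show _ * _ = _ * _
    generalize xx i = u at h ⊢
    generalize aa i = a at h ⊢
    generalize xx (i + 2) = w
    have h' : u⁻¹ * a = a * u⁻¹ := ((show Commute u a from h).inv_left).eq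
    calc w * u⁻¹ * w⁻¹ * (w * (u⁻¹ * a) * w⁻¹) = w * (u⁻¹ * (u⁻¹ * a)) * w⁻¹ := by group
      _ = w * (u⁻¹ * (a * u⁻¹)) * w⁻¹ := by rw [h']
      _ = _ := by group
  · obtain ⟨r1, r2, r3⟩ := bor.rels ρ
    have os : OSys (ρ (xx 0)⁻¹) (ρ (xx 1)⁻¹) (ρ (xx 2)⁻¹) (ρ (aa 0)) (ρ (aa 1)) (ρ (aa 2)) :=
      ⟨dom ρ 1 (hc 1 (by decide)), dom ρ 2 (hc 2 (by decide)), r1, r2, r3⟩
    have ex : (mkb (Block.bor.x 0)) = xx 2 * (xx 0)⁻¹ * (xx 2)⁻¹ := x_eq 0
    have ee : (mkb (Block.bor.e 0)) = xx 2 * ((xx 0)⁻¹ * (aa 0 * (xx 2)⁻¹)) := by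
      rw [e_eq 0, mul_assoc, mul_assoc]; rfl
    change ρ (mkb (Block.bor.x 0)) p = p at hx
    change ρ (mkb (Block.bor.e 0)) p = p at he
    set q := ρ (xx 2)⁻¹ p with hq
    have pq : ρ (xx 2) q = p := by
      rw [hq, ← RelIso.mul_apply, ← map_mul, mul_inv_cancel, map_one]; rfl
    have q1 : ρ (xx 0)⁻¹ q = q := by
      rw [ex] at hx
      have : ρ (xx 2) (ρ (xx 0)⁻¹ q) = p := by
        rw [mul_assoc, map_mul, map_mul] at hx
        exact hx
      exact (ρ (xx 2)).injective (this.trans pq.symm)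
    have q2 : ρ (aa 0) q = q := by
      rw [ee] at he
      have h1 : ρ (xx 2) (ρ (xx 0)⁻¹ (ρ (aa 0) q)) = p := by
        rw [map_mul, map_mul, map_mul] at he
        exact he
      have h2 : ρ (xx 0)⁻¹ (ρ (aa 0) q) = q := (ρ (xx 2)).injective (h1.trans pq.symm)
      exact (ρ (xx 0)⁻¹).injective (h2.trans q1.symm)
    obtain ⟨q3, q4⟩ := ofix os q1 q2
    have all := gens ρ (p := q) (fun i => by fin_cases i <;> assumption)
    have hp : p = q := by rw [← pq, all]
    rw [hp]; exact all
  · obtain ⟨r1, r2, r3⟩ := bor.rels ρ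
    have sys : Sys (ρ (xx 0)⁻¹) (ρ (xx 1)⁻¹) (ρ (xx 2)⁻¹) (ρ (aa 0)) (ρ (aa 1)) (ρ (aa 2)) :=
      ⟨dom ρ 0 h0, dom ρ 1 (hc 1 (by decide)), dom ρ 2 (hc 2 (by decide)), r1, r2, r3⟩
    have t0 := Pool.Agent.W705.Borr.trivial sys p
    have t1 := Pool.Agent.W705.Borr.trivial sys.rot p
    have t2 := Pool.Agent.W705.Borr.trivial sys.rot.rot p
    exact gens ρ (fun i => by fin_cases i <;> assumption) g

end BorOK

end Pool.Agent.R649.BT
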