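import Pool.Agent.R649.BT.Blocks

set_option autoImplicit false

/-!
# Seifert blocks and alternating blocks
-/

namespace Pool.Agent.R649.BT

open Pool.Agent.R649.BT.Alt
open Pool.Agent.TH335.LS (Act)

universe u

namespace SeifOK

section dyn
variable {X : Type u} [LinearOrder X]

theorem list_up {ι : Type} (h : X ≃o X) (c : ι → X ≃o X)
    (hc : ∀ i v, h (c i v) = c i (h v)) (hw : ∀ i v, v < h v → v ≤ c i v) (l : List ι) :
    ∀ q, q < h q → q ≤ (l.map c).prod q ∧ (l.map c).prod q < h ((l.map c).prod q) := by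
  induction l with
  | nil => intro q hq; simpa using hq
  | cons i l ih =>
    intro q hq
    obtain ⟨h1, h2⟩ := ih q hq
    have e : ((i :: l).map c).prod q = c i ((l.map c).prod q) := by
      rw [List.map_cons, List.prod_cons]; rfl
    rw [e]
    refine ⟨h1.trans (hw i _ h2), ?_⟩
    rw [hc]
    exact (c i).lt_iff_lt.mpr h2

theorem no_up {k : ℕ} (h : X ≃o X) (c : Fin (k + 3) → X ≃o X)
    (hc : ∀ i v, h (c i v) = c i (h v)) (hw : ∀ i v, v < h v → v ≤ c i v)
    (hs : ∀ v, v < h v → v < c 1 v) (hp : ∀ v, (List.ofFn c).prod v = v) (p : X) :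
    ¬ p < h p := by
  intro hup
  have e : List.ofFn c = c 0 :: c 1 :: ((List.finRange (k + 1)).map
      (fun i => i.succ.succ)).map c := by
    rw [List.ofFn_succ, List.ofFn_succ, List.ofFn_eq_map, List.map_map]
    rfl
  have h1 := hp p
  rw [e, List.prod_cons, List.prod_cons] at h1
  obtain ⟨h2, h3⟩ := list_up h c hc hw ((List.finRange (k + 1)).map (fun i => i.succ.succ)) p hup
  set q := (((List.finRange (k + 1)).map (fun i => i.succ.succ)).map c).prod p with hq
  change c 0 (c 1 q) = p at h1
  have h4 := hs q h3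
  have h5 : c 1 q < h (c 1 q) := by
    rw [hc]; exact (c 1).lt_iff_lt.mpr h3
  have h6 := hw 0 _ h5
  rw [h1] at h6
  exact absurd (lt_of_le_of_lt h2 h4) (not_lt.mpr h6)

end dyn

/-- The class of a word. -/
abbrev mks (k : ℕ) : FreeGroup (Fin (k + 3) ⊕ Unit) →* PresentedGroup (Block.seifRel k) :=
  PresentedGroup.mk (Block.seifRel k)

theorem comm (k : ℕ) (i : Fin (k + 3)) : Commute (mks k Block.h) (mks k (Block.c i)) := by
  have h : mks k (Block.h * Block.c i * Block.h⁻¹ * (Block.c i)⁻¹) = 1 :=
    PresentedGroup.one_of_mem (Or.inl ⟨i, rfl⟩)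
  rw [map_mul, map_mul, map_mul, map_inv, map_inv, mul_inv_eq_one, mul_inv_eq_iff_eq_mul] at h
  exact h

theorem ok (k : ℕ) : BlockOK.{u} (m := k + 2) (Block.seif k).rel (Block.seif k).x
    (Block.seif k).e True := by
  refine ⟨fun i => ?_, fun X _ ρ hc p hx he => ?_, fun X _ ρ h0 hc hs g p => ?_⟩
  · show Commute (mks k Block.h) (mks k (Block.c i)⁻¹)
    rw [map_inv]
    exact (comm k i).inv_right
  · change ρ (mks k Block.h) p = p at hx
    change ρ (mks k (Block.c 0)⁻¹) p = p at he
    refine fix_gens ρ ?_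
    rintro (i | ⟨⟩)
    · show ρ (mks k (Block.c i)) p = p
      have h1 : ρ (mks k (Block.c i)⁻¹) p = p := by
        by_cases hi : i = 0
        · rw [hi]; exact he
        · exact (hc i hi).fix p hx
      rw [map_inv, map_inv] at h1
      exact fixg h1
    · exact hx
  · have cap : ∀ i : Fin (k + 3), Cap (ρ (mks k Block.h)) (ρ (mks k (Block.c i)⁻¹)) := by
      intro i
      by_cases hi : i = 0
      · rw [hi]; exact h0
      · exact hc i hi
    have s1 : SCap (ρ (mks k Block.h)) (ρ (mks k (Block.c 1)⁻¹)) := hs trivial 1 (by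
      intro h; exact absurd (congrArg Fin.val h) (by simp))
    have hcm : ∀ (i : Fin (k + 3)) v, ρ (mks k Block.h) (ρ (mks k (Block.c i)) v) =
        ρ (mks k (Block.c i)) (ρ (mks k Block.h) v) := by
      intro i v
      have h1 := congrArg (fun g => ρ g v) (comm k i).eq
      simp only [map_mul ρ] at h1
      exact h1
    have inv : ∀ (i : Fin (k + 3)) v, ρ (mks k (Block.c i)) (ρ (mks k (Block.c i)⁻¹) v) = v := by
      intro i v
      rw [← RelIso.mul_apply, ← map_mul, map_inv, mul_inv_cancel, map_one]; rfl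
    have prod : ∀ v, (List.ofFn fun i : Fin (k + 3) => ρ (mks k (Block.c i))).prod v = v := by
      intro v
      have h1 : mks k (List.ofFn (Block.c (k := k))).prod = 1 :=
        PresentedGroup.one_of_mem (Or.inr rfl)
      have h2 := congrArg ρ h1
      rw [map_list_prod, List.map_ofFn, map_list_prod, List.map_ofFn, map_one] at h2
      have h3 := congrArg (fun g : X ≃o X => g v) h2
      exact h3
    have up : ∀ v, ¬ v < ρ (mks k Block.h) v := by
      intro v
      refine no_up (ρ (mks k Block.h)) (fun i => ρ (mks k (Block.c i))) hcm ?_ ?_ prod v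
      · intro i v hv
        have h1 := (ρ (mks k (Block.c i))).monotone ((cap i).up v hv)
        rwa [inv] at h1
      · intro v hv
        have h1 := (ρ (mks k (Block.c 1))).lt_iff_lt.mpr (s1.up v hv)
        rwa [inv] at h1
    have down : ∀ v, ¬ ρ (mks k Block.h) v < v := by
      intro v
      have dprod : ∀ (l : List (X ≃o X)) (v : X),
          (l.map (fun g : X ≃o X => (g.dual : Xᵒᵈ ≃o Xᵒᵈ))).prod v = l.prod v := by
        intro l
        induction l with
        | nil => intro v; rfl
        | cons g l ih =>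
          intro v
          rw [List.map_cons, List.prod_cons, List.prod_cons]
          show g ((l.map (fun g : X ≃o X => (g.dual : Xᵒᵈ ≃o Xᵒᵈ))).prod v) = g (l.prod v)
          rw [ih]
      refine no_up (X := Xᵒᵈ) (ρ (mks k Block.h)).dual
        (fun i => (ρ (mks k (Block.c i))).dual) hcm ?_ ?_ ?_ v
      · intro i v hv
        have h1 := (ρ (mks k (Block.c i))).monotone ((cap i).down v hv)
        rw [inv] at h1
        exact h1
      · intro v hv
        have h1 := (ρ (mks k (Block.c 1))).lt_iff_lt.mpr (s1.down v hv)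
        rw [inv] at h1
        exact h1
      · intro v
        have h1 := dprod (List.ofFn fun i : Fin (k + 3) => ρ (mks k (Block.c i))) v
        rw [List.map_ofFn] at h1
        exact h1.trans (prod v)
    have hf : ∀ v, ρ (mks k Block.h) v = v :=
      fun v => le_antisymm (not_lt.mp (up v)) (not_lt.mp (down v))
    refine fix_gens ρ ?_ g
    rintro (i | ⟨⟩)
    · have h1 := (cap i).fix p (hf p)
      rw [map_inv, map_inv] at h1
      exact fixg h1
    · exact hf p

end SeifOK

namespace AltOK

variable (D : Diagram)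

/-- The class of a word. -/
abbrev mka : FreeGroup D.Gen →* PresentedGroup D.relators := PresentedGroup.mk D.relators

theorem one {w : FreeGroup D.Gen} (h : w ∈ D.relators) : mka D w = 1 :=
  PresentedGroup.one_of_mem h

/-- The action. -/
def act {X : Type u} [CompleteLinearOrder X] (ρ : PresentedGroup D.relators →* (X ≃o X)) :
    Act (PresentedGroup D.relators) X where
  f := ρ
  one := fun r => by rw [map_one]; rfl
  mul := fun g h r => by rw [map_mul]; rfl

theorem main {X : Type u} [CompleteLinearOrder X]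
    (ρ : PresentedGroup D.relators →* (X ≃o X)) :
    ESys (ρ (mka D D.xL)) (ρ (mka D D.yL)) (ρ (mka D D.xR)) (ρ (mka D D.yR)) (ρ (mka D D.m))
      (ρ (mka D D.t)) (ρ (mka D D.t₁)) ∧
    ∀ r, ρ (mka D D.xL) r = r → ρ (mka D D.yL) r = r → ρ (mka D D.xR) r = r →
      ρ (mka D D.yR) r = r → ρ (mka D D.m) r = r → ∀ g, ρ g r = r := by
  have key := esys_of_diagram (act D ρ) D (fun v => mka D (D.w v)) (fun v => mka D (D.b v))
    (mka D D.m) ?_ ?_ ?_
  · have exL : mka D D.xL = (mka D (D.w D.top))⁻¹ * mka D (D.w D.wL) := by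
      rw [Diagram.xL, map_mul, map_inv]
    have eyL : mka D D.yL = (mka D (D.b D.bL))⁻¹ * mka D (D.b D.bot) := by
      rw [Diagram.yL, map_mul, map_inv]
    have exR : mka D D.xR = (mka D (D.w D.top))⁻¹ * mka D (D.w D.wR) := by
      rw [Diagram.xR, map_mul, map_inv]
    have eyR : mka D D.yR = (mka D (D.b D.bR))⁻¹ * mka D (D.b D.bot) := by
      rw [Diagram.yR, map_mul, map_inv]
    have et : mka D D.t = (mka D D.yR)⁻¹ * mka D D.xR * mka D D.m := by
      rw [Diagram.t, map_mul, map_mul, map_inv]
    have et₁ : mka D D.t₁ = mka D D.xR * (mka D D.yR)⁻¹ * mka D D.m := by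
      rw [Diagram.t₁, map_mul, map_mul, map_inv]
    rw [et, et₁, exL, eyL, exR, eyR]
    refine ⟨key.1, fun r h1 h2 h3 h4 h5 => fix_gens ρ ?_⟩
    obtain ⟨k1, k2⟩ := key.2 r h1 h2 h3 h4
    have hw0 : mka D (D.w D.top) = 1 := one D (Or.inl rfl)
    have hb0 : mka D (D.b D.bot) = 1 := one D (Or.inr (Or.inl rfl))
    rintro (v | v | ⟨⟩)
    · have := k1 v
      simp only [hw0] at this
      refine this.trans ?_
      show ρ 1 r = r
      rw [map_one]; rfl
    · have := k2 v
      simp only [hb0] at this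
      refine this.trans ?_
      show ρ 1 r = r
      rw [map_one]; rfl
    · exact h5
  · intro c
    have h1 := one D (Or.inr (Or.inr (Or.inl ⟨c, Or.inr rfl⟩)))
    rw [map_mul, map_inv, map_pow, map_pow, mul_inv_eq_one] at h1
    simpa only [Diagram.u, Diagram.v, map_mul, map_inv] using h1
  · have h1 := one D (Or.inr (Or.inr (Or.inr (Or.inl rfl))))
    simpa only [Diagram.xL, Diagram.xR, map_mul, map_inv] using h1
  · have h1 := one D (Or.inr (Or.inr (Or.inr (Or.inr (Or.inl rfl)))))
    simpa only [Diagram.yL, Diagram.yR, map_mul, map_inv] using h1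

theorem ok : BlockOK.{u} (m := 0) (Block.alt D).rel (Block.alt D).x (Block.alt D).e False := by
  refine ⟨fun i => ?_, fun X _ ρ hc p hx he => ?_, fun X _ ρ h0 hc hs g p => ?_⟩
  · show Commute (mka D D.t) (mka D D.t₁)
    have h := one D (w := D.t * D.t₁ * D.t⁻¹ * D.t₁⁻¹)
      (Or.inr (Or.inr (Or.inr (Or.inr (Or.inr rfl)))))
    rw [map_mul, map_mul, map_mul, map_inv, map_inv, mul_inv_eq_one, mul_inv_eq_iff_eq_mul] at h
    exact h
  · obtain ⟨h1, h2⟩ := main D ρ
    obtain ⟨a1, a2, a3, a4, a5⟩ := h1.fixT hx he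
    exact h2 p a4 a5 a1 a2 a3
  · obtain ⟨h1, h2⟩ := main D ρ
    have h3 := h1.toSys (fun r hr => absurd (h0.up r hr.1) (not_le.mpr hr.2))
      (fun r hr => absurd (h0.down r hr.1) (not_le.mpr hr.2))
    obtain ⟨t1, t2, t3⟩ := h3.trivial p
    have t4 : ρ (mka D D.xR) p = p := by
      have h4 := h1.rx p
      rwa [t1, t3] at h4
    have t5 : ρ (mka D D.yR) p = p := by
      have h4 := h1.ry p
      rwa [t2, t3] at h4
    exact h2 p t1 t2 t4 t5 t3 g

end AltOK

end Pool.Agent.R649.BT
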