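import Pool.Agent.W705.BorrGroup

set_option autoImplicit false

/-!
# Commuting order automorphisms on an interval; the Borromean relations with an open cusp
-/

namespace Pool.Agent.R649.BT

open Pool.Agent.W705.Borr

universe u

section dyn
variable {X : Type u} [CompleteLinearOrder X]

theorem sSup_fix (g : X ≃o X) {S : Set X} (h : ∀ w ∈ S, g w ∈ S) (h' : ∀ w ∈ S, g.symm w ∈ S) :
    g (sSup S) = sSup S := by
  apply le_antisymm
  · rw [g.map_sSup]
    exact iSup₂_le fun w hw => le_sSup (h w hw)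
  · refine sSup_le fun w hw => ?_
    have h1 : g (g.symm w) ≤ g (sSup S) := g.monotone (le_sSup (h' w hw))
    rwa [g.apply_symm_apply] at h1

theorem sInf_fix (g : X ≃o X) {S : Set X} (h : ∀ w ∈ S, g w ∈ S) (h' : ∀ w ∈ S, g.symm w ∈ S) :
    g (sInf S) = sInf S := by
  apply le_antisymm
  · refine le_sInf fun w hw => ?_
    have h1 : g (sInf S) ≤ g (g.symm w) := g.monotone (sInf_le (h' w hw))
    rwa [g.apply_symm_apply] at h1
  · rw [g.map_sInf]
    exact le_iInf₂ fun w hw => sInf_le (h w hw)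

theorem symm_fix {g : X ≃o X} {v : X} (h : g v = v) : g.symm v = v :=
  (OrderIso.symm_apply_eq g).mpr h.symm

/-- Commuting automorphisms which have fixed points in an interval have a common one. -/
theorem common {P Q : X ≃o X} (hc : ∀ v, P (Q v) = Q (P v)) {α β p q : X}
    (p1 : α < p) (p2 : p < β) (q1 : α < q) (q2 : q < β) (hp : P p = p) (hq : Q q = q) :
    ∃ t, α < t ∧ t < β ∧ P t = t ∧ Q t = t := by
  have hc' : ∀ v, P (Q.symm v) = Q.symm (P v) := by
    intro v
    rw [← Q.injective.eq_iff, ← hc, Q.apply_symm_apply, Q.apply_symm_apply]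
  rcases le_total p q with h | h
  · set S : Set X := {w | w ≤ q ∧ P w = w} with hS
    have s1 : ∀ w ∈ S, Q w ∈ S := by
      rintro w ⟨h1, h2⟩
      refine ⟨?_, by rw [hc, h2]⟩
      rw [← hq]; exact Q.monotone h1
    have s2 : ∀ w ∈ S, Q.symm w ∈ S := by
      rintro w ⟨h1, h2⟩
      refine ⟨?_, by rw [hc', h2]⟩
      rw [← symm_fix hq]; exact Q.symm.monotone h1
    have t1 : p ≤ sSup S := le_sSup ⟨h, hp⟩
    have t2 : sSup S ≤ q := sSup_le fun w hw => hw.1
    refine ⟨sSup S, lt_of_lt_of_le p1 t1, lt_of_le_of_lt t2 q2, ?_, sSup_fix Q s1 s2⟩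
    refine sSup_fix P (fun w hw => ?_) (fun w hw => ?_)
    · rw [hw.2]; exact hw
    · rw [symm_fix hw.2]; exact hw
  · set S : Set X := {w | q ≤ w ∧ P w = w} with hS
    have s1 : ∀ w ∈ S, Q w ∈ S := by
      rintro w ⟨h1, h2⟩
      refine ⟨?_, by rw [hc, h2]⟩
      rw [← hq]; exact Q.monotone h1
    have s2 : ∀ w ∈ S, Q.symm w ∈ S := by
      rintro w ⟨h1, h2⟩
      refine ⟨?_, by rw [hc', h2]⟩
      rw [← symm_fix hq]; exact Q.symm.monotone h1
    have t1 : sInf S ≤ p := sInf_le ⟨h, hp⟩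
    have t2 : q ≤ sInf S := le_sInf fun w hw => hw.1
    refine ⟨sInf S, lt_of_lt_of_le q1 t2, lt_of_le_of_lt t1 p2, ?_, sInf_fix Q s1 s2⟩
    refine sInf_fix P (fun w hw => ?_) (fun w hw => ?_)
    · rw [hw.2]; exact hw
    · rw [symm_fix hw.2]; exact hw

/-- `g` moves all points between `α` and `β` up. -/
def Up (α β : X) (g : X ≃o X) : Prop := ∀ w, α < w → w < β → w < g w

/-- `g` moves all points between `α` and `β` down. -/
def Dn (α β : X) (g : X ≃o X) : Prop := ∀ w, α < w → w < β → g w < w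

/-- `g` has a fixed point between `α` and `β`. -/
def Hf (α β : X) (g : X ≃o X) : Prop := ∃ w, α < w ∧ w < β ∧ g w = w

variable {α β : X}

theorem trich (g : X ≃o X) : Up α β g ∨ Dn α β g ∨ Hf α β g := by
  by_contra hcon
  rw [not_or, not_or] at hcon
  obtain ⟨h1, h2, h3⟩ := hcon
  unfold Up at h1
  unfold Dn at h2
  push_neg at h1 h2
  obtain ⟨v, v1, v2, v3⟩ := h1
  obtain ⟨w, w1, w2, w3⟩ := h2
  have hne : ∀ t, α < t → t < β → g t ≠ t := fun t t1 t2 t3 => h3 ⟨t, t1, t2, t3⟩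
  have v3' : g v < v := lt_of_le_of_ne v3 (hne v v1 v2)
  have w3' : w < g w := lt_of_le_of_ne w3 (hne w w1 w2).symm
  rcases le_total v w with h | h
  · obtain ⟨t, t1, t2, t3⟩ := ivt g h v3 w3'
    exact hne t (lt_of_lt_of_le v1 t1) (t2.trans w2) t3
  · obtain ⟨t, t1, t2, t3⟩ := ivt' g h v3 w3'
    exact hne t (w1.trans t1) (lt_of_le_of_lt t2 v2) t3

theorem fix_zpow {g : X ≃o X} {v : X} (h : g v = v) (n : ℤ) : (g ^ n) v = v := by
  have h1 : g ∈ MulAction.stabilizer (X ≃o X) v := h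
  exact (MulAction.stabilizer (X ≃o X) v).zpow_mem h1 n

theorem mem_zpow {g : X ≃o X} (hα : g α = α) (hβ : g β = β) (n : ℤ) {w : X} (h1 : α < w)
    (h2 : w < β) : α < (g ^ n) w ∧ (g ^ n) w < β := by
  constructor
  · have := ((g ^ n).lt_iff_lt).mpr h1
    rwa [fix_zpow hα] at this
  · have := ((g ^ n).lt_iff_lt).mpr h2
    rwa [fix_zpow hβ] at this

theorem Up.pow {g : X ≃o X} (hα : g α = α) (hβ : g β = β) (h : Up α β g) {n : ℤ}
    (hn : 0 < n) : Up α β (g ^ n) := by
  obtain ⟨k, rfl⟩ := Int.eq_ofNat_of_zero_le hn.le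
  have hk : 1 ≤ k := by omega
  clear hn
  induction k, hk using Nat.le_induction with
  | base => intro w h1 h2; simpa using h w h1 h2
  | succ k _ ih =>
    intro w h1 h2
    have h3 := ih w h1 h2
    obtain ⟨h4, h5⟩ := mem_zpow hα hβ (k : ℤ) h1 h2
    have h6 := h _ h4 h5
    have e : (g ^ ((k + 1 : ℕ) : ℤ)) w = g ((g ^ (k : ℤ)) w) := by
      rw [Nat.cast_add, Nat.cast_one, add_comm, zpow_add, zpow_one]; rfl
    rw [e]
    exact h3.trans h6

theorem Up.inv {g : X ≃o X} (hα : g α = α) (hβ : g β = β) (h : Up α β g) : Dn α β g⁻¹ := by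
  intro w h1 h2
  have h3 := mem_zpow hα hβ (-1) h1 h2
  rw [zpow_neg, zpow_one] at h3
  have h4 := h _ h3.1 h3.2
  have e : g (g⁻¹ w) = w := g.apply_symm_apply w
  rwa [e] at h4

theorem Dn.inv {g : X ≃o X} (hα : g α = α) (hβ : g β = β) (h : Dn α β g) : Up α β g⁻¹ := by
  intro w h1 h2
  have h3 := mem_zpow hα hβ (-1) h1 h2
  rw [zpow_neg, zpow_one] at h3
  have h4 := h _ h3.1 h3.2
  have e : g (g⁻¹ w) = w := g.apply_symm_apply w
  rwa [e] at h4

theorem not_fix_of_zpow {g : X ≃o X} {j : ℤ} (hα : g α = α) (hβ : g β = β)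
    (h : Up α β g) (hj : 0 < j) {w : X} (h1 : α < w) (h2 : w < β) : (g ^ j) w ≠ w :=
  (h.pow hα hβ hj w h1 h2).ne'

/-- If `P` has a fixed point and `Q` moves all points up, then `P ^ i * Q ^ j` with `j > 0` moves
all points up. -/
theorem Up.of_hf {P Q : X ≃o X} (hc : Commute P Q) (Pα : P α = α) (Pβ : P β = β) (Qα : Q α = α)
    (Qβ : Q β = β) (hP : Hf α β P) (hQ : Up α β Q) (i : ℤ) {j : ℤ} (hj : 0 < j) :
    Up α β (P ^ i * Q ^ j) := by
  obtain ⟨p, p1, p2, p3⟩ := hP
  have hcc : ∀ v, P ((P ^ i * Q ^ j) v) = (P ^ i * Q ^ j) (P v) := by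
    intro v
    have h1 : Commute P (P ^ i * Q ^ j) :=
      ((Commute.refl P).zpow_right i).mul_right (hc.zpow_right j)
    exact DFunLike.congr_fun h1.eq v
  rcases trich (α := α) (β := β) (P ^ i * Q ^ j) with h | h | h
  · exact h
  · exfalso
    have h1 := h p p1 p2
    have h2 : (P ^ i * Q ^ j) p = (Q ^ j) p := by
      have h3 : Commute (P ^ i) (Q ^ j) := (hc.zpow_left i).zpow_right j
      rw [h3.eq]
      show (Q ^ j) ((P ^ i) p) = _
      rw [fix_zpow p3]
    rw [h2] at h1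
    exact absurd (hQ.pow Qα Qβ hj p p1 p2) (not_lt.mpr h1.le)
  · exfalso
    obtain ⟨q, q1, q2, q3⟩ := h
    obtain ⟨t, t1, t2, t3, t4⟩ := common hcc p1 p2 q1 q2 p3 q3
    have h5 : (P ^ i * Q ^ j) t = (Q ^ j) t := by
      have h3 : Commute (P ^ i) (Q ^ j) := (hc.zpow_left i).zpow_right j
      rw [h3.eq]
      show (Q ^ j) ((P ^ i) t) = _
      rw [fix_zpow t3]
    rw [h5] at t4
    exact not_fix_of_zpow Qα Qβ hQ hj t1 t2 t4

theorem Up.mul {P Q : X ≃o X} (Pα : P α = α) (Pβ : P β = β) (Qα : Q α = α)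
    (Qβ : Q β = β) (hP : Up α β P) (hQ : Up α β Q) {i j : ℤ} (hi : 0 < i) (hj : 0 ≤ j) :
    Up α β (P ^ i * Q ^ j) := by
  intro w h1 h2
  have h3 := mem_zpow Qα Qβ j h1 h2
  have h4 : w ≤ (Q ^ j) w := by
    rcases hj.lt_or_eq with hj' | hj'
    · exact (hQ.pow Qα Qβ hj' w h1 h2).le
    · rw [← hj']; simp
  exact lt_of_le_of_lt h4 (hP.pow Pα Pβ hi _ h3.1 h3.2)

/-- The positive cone: `P` moves all points up, `Q` moves some point up. -/
theorem Up.cone {P Q : X ≃o X} (hc : Commute P Q) (Pα : P α = α) (Pβ : P β = β) (Qα : Q α = α)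
    (Qβ : Q β = β) (hP : Up α β P) (hQ : ¬ Dn α β Q) {i j : ℤ} (hi : 0 < i) (hj : 0 ≤ j) :
    Up α β (P ^ i * Q ^ j) := by
  rcases trich (α := α) (β := β) Q with h | h | h
  · exact hP.mul Pα Pβ Qα Qβ h hi hj
  · exact absurd h hQ
  · have h1 := Up.of_hf hc.symm Qα Qβ Pα Pβ h hP j hi
    have h2 : Commute (P ^ i) (Q ^ j) := (hc.zpow_left i).zpow_right j
    rwa [h2.eq]

/-- The condition on a gluing matrix: the slopes at most `1` and `∞` go to slopes greater than
`1`. -/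
def Good (a b c d : ℤ) : Prop :=
  (0 < b ∧ b < a ∧ b + d < 0 ∧ a + c < b + d) ∨ (b < 0 ∧ a < b ∧ 0 < b + d ∧ b + d < a + c)

theorem Good.neg {a b c d : ℤ} (h : Good a b c d) : Good (-a) (-b) (-c) (-d) := by
  unfold Good at *
  omega

theorem inv_word {P Q : X ≃o X} (hc : Commute P Q) (i j : ℤ) :
    (P ^ i * Q ^ j)⁻¹ = P ^ (-i) * Q ^ (-j) := by
  have h2 : Commute (P ^ i) (Q ^ j) := (hc.zpow_left i).zpow_right j
  rw [h2.eq, mul_inv_rev, zpow_neg, zpow_neg]

theorem fix_word {P Q : X ≃o X} {v : X} (hP : P v = v) (hQ : Q v = v) (i j : ℤ) :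
    (P ^ i * Q ^ j) v = v := by
  show (P ^ i) ((Q ^ j) v) = v
  rw [fix_zpow hQ, fix_zpow hP]

theorem dn_of_inv {P Q : X ≃o X} (hc : Commute P Q) (Pα : P α = α) (Pβ : P β = β)
    (Qα : Q α = α) (Qβ : Q β = β) {i j : ℤ} (h : Up α β (P ^ (-i) * Q ^ (-j))) :
    Dn α β (P ^ i * Q ^ j) := by
  have h1 := h.inv (fix_word Pα Qα _ _) (fix_word Pβ Qβ _ _)
  rw [inv_word hc, neg_neg, neg_neg] at h1
  exact h1

/-- The key lemma on a pair of commuting automorphisms `x, a`. -/
theorem wedge {x a : X ≃o X} (hc : Commute x a) (xα : x α = α) (xβ : x β = β) (aα : a α = α)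
    (aβ : a β = β) (nc : ∀ w, α < w → w < β → x w = w → a w ≠ w)
    (n1 : Up α β x → ¬ Dn α β (x * a)) (n2 : Dn α β x → ¬ Up α β (x * a)) {A B C D : ℤ}
    (hG : Good A B C D) :
    (Up α β (x ^ A * a ^ B) ∧ Dn α β ((x ^ A * a ^ B) * (x ^ C * a ^ D))) ∨
    (Dn α β (x ^ A * a ^ B) ∧ Up α β ((x ^ A * a ^ B) * (x ^ C * a ^ D))) := by
  have em : ∀ i j k l : ℤ, (x ^ i * a ^ j) * (x ^ k * a ^ l) = x ^ (i + k) * a ^ (j + l) := by
    intro i j k l
    have h2 : Commute (a ^ j) (x ^ k) := (hc.symm.zpow_left j).zpow_right k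
    calc (x ^ i * a ^ j) * (x ^ k * a ^ l) = x ^ i * (a ^ j * x ^ k) * a ^ l := by group
      _ = x ^ i * (x ^ k * a ^ j) * a ^ l := by rw [h2.eq]
      _ = _ := by rw [zpow_add, zpow_add]; group
  rw [em]
  -- the case where `x` has a fixed point
  have hfix : ∀ x a : X ≃o X, Commute x a → x α = α → x β = β → a α = α → a β = β →
      Hf α β x → Up α β a → ∀ {A B C D : ℤ}, Good A B C D →
      (Up α β (x ^ A * a ^ B) ∧ Dn α β (x ^ (A + C) * a ^ (B + D))) ∨
      (Dn α β (x ^ A * a ^ B) ∧ Up α β (x ^ (A + C) * a ^ (B + D))) := by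
    intro x a hc xα xβ aα aβ hx ha A B C D hG
    rcases hG with ⟨g1, g2, g3, g4⟩ | ⟨g1, g2, g3, g4⟩
    · left
      exact ⟨Up.of_hf hc xα xβ aα aβ hx ha _ g1, dn_of_inv hc xα xβ aα aβ
        (Up.of_hf hc xα xβ aα aβ hx ha _ (by omega))⟩
    · right
      exact ⟨dn_of_inv hc xα xβ aα aβ (Up.of_hf hc xα xβ aα aβ hx ha _ (by omega)),
        Up.of_hf hc xα xβ aα aβ hx ha _ g3⟩
  -- the case where `x` moves all points up
  have hup : ∀ x a : X ≃o X, Commute x a → x α = α → x β = β → a α = α → a β = β →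
      Up α β x → ¬ Dn α β (x * a) → ∀ {A B C D : ℤ}, Good A B C D →
      (Up α β (x ^ A * a ^ B) ∧ Dn α β (x ^ (A + C) * a ^ (B + D))) ∨
      (Dn α β (x ^ A * a ^ B) ∧ Up α β (x ^ (A + C) * a ^ (B + D))) := by
    intro x a hc xα xβ aα aβ hx he A B C D hG
    set e := x * a with hee
    have hce : Commute x e := (Commute.refl x).mul_right hc
    have eα : e α = α := by show x (a α) = α; rw [aα, xα]
    have eβ : e β = β := by show x (a β) = β; rw [aβ, xβ]
    have hw : ∀ i j : ℤ, x ^ i * a ^ j = x ^ (i - j) * e ^ j := by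
      intro i j
      rw [hee, hc.mul_zpow, ← mul_assoc, ← zpow_add, sub_add_cancel]
    rw [hw, hw]
    rcases hG with ⟨g1, g2, g3, g4⟩ | ⟨g1, g2, g3, g4⟩
    · left
      exact ⟨Up.cone hce xα xβ eα eβ hx he (by omega) (by omega), dn_of_inv hce xα xβ eα eβ
        (Up.cone hce xα xβ eα eβ hx he (by omega) (by omega))⟩
    · right
      exact ⟨dn_of_inv hce xα xβ eα eβ (Up.cone hce xα xβ eα eβ hx he (by omega) (by omega)),
        Up.cone hce xα xβ eα eβ hx he (by omega) (by omega)⟩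
  have ix : ∀ {g : X ≃o X} {v : X}, g v = v → g⁻¹ v = v := fun h => symm_fix h
  rcases trich (α := α) (β := β) x with h | h | h
  · exact hup x a hc xα xβ aα aβ h (n1 h) hG
  · -- use the inverses
    have h1 := hup x⁻¹ a⁻¹ (hc.inv_left.inv_right) (ix xα) (ix xβ) (ix aα) (ix aβ)
      (h.inv xα xβ) (fun h2 => n2 h (by
        have h3 := Dn.inv (g := x⁻¹ * a⁻¹) (by
          show x⁻¹ (a⁻¹ α) = α
          rw [ix aα, ix xα]) (by
          show x⁻¹ (a⁻¹ β) = β
          rw [ix aβ, ix xβ]) h2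
        have e3 : (x⁻¹ * a⁻¹)⁻¹ = x * a := by rw [mul_inv_rev, inv_inv, inv_inv, hc.eq]
        rwa [e3] at h3)) hG.neg
    have e : ∀ i j : ℤ, x⁻¹ ^ (-i) * a⁻¹ ^ (-j) = x ^ i * a ^ j := by
      intro i j; rw [inv_zpow', inv_zpow', neg_neg, neg_neg]
    have e1 := e A B
    have e2 : x⁻¹ ^ (-A + -C) * a⁻¹ ^ (-B + -D) = x ^ (A + C) * a ^ (B + D) := by
      rw [← e (A + C) (B + D)]; congr 2 <;> ring
    rw [e1, e2] at h1
    exact h1
  · rcases trich (α := α) (β := β) a with h2 | h2 | h2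
    · exact hfix x a hc xα xβ aα aβ h h2 hG
    · have h3 := hfix x⁻¹ a⁻¹ (hc.inv_left.inv_right) (ix xα) (ix xβ) (ix aα) (ix aβ)
        (by
          obtain ⟨w, w1, w2, w3⟩ := h
          exact ⟨w, w1, w2, ix w3⟩) (h2.inv aα aβ) hG.neg
      have e : ∀ i j : ℤ, x⁻¹ ^ (-i) * a⁻¹ ^ (-j) = x ^ i * a ^ j := by
        intro i j; rw [inv_zpow', inv_zpow', neg_neg, neg_neg]
      have e1 := e A B
      have e2 : x⁻¹ ^ (-A + -C) * a⁻¹ ^ (-B + -D) = x ^ (A + C) * a ^ (B + D) := by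
        rw [← e (A + C) (B + D)]; congr 2 <;> ring
      rw [e1, e2] at h3
      exact h3
    · exfalso
      obtain ⟨p, p1, p2, p3⟩ := h
      obtain ⟨q, q1, q2, q3⟩ := h2
      obtain ⟨t, t1, t2, t3, t4⟩ := common (P := x) (Q := a)
        (fun v => DFunLike.congr_fun hc.eq v) p1 p2 q1 q2 p3 q3
      exact nc t t1 t2 t3 t4

end dyn

/-! ### The Borromean relations with an open cusp -/

section openc
variable {X : Type u} [CompleteLinearOrder X] {x y z a b c : X ≃o X}

/-- The relations of the Borromean rings, with the dominance property for two cusps. -/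
structure OSys (x y z a b c : X ≃o X) : Prop where
  dy : Dom y b
  dz : Dom z c
  r1 : ∀ v, y (a (z v)) = z (y v)
  r2 : ∀ v, z (b (x v)) = x (z v)
  r3 : ∀ v, x (c (y v)) = y (x v)

theorem OSys.dual (h : OSys x y z a b c) :
    OSys (X := Xᵒᵈ) x.dual y.dual z.dual a.dual b.dual c.dual :=
  ⟨h.dy.dual, h.dz.dual, h.r1, h.r2, h.r3⟩

theorem ocaseA (h : OSys x y z a b c) {s : X} (hx : x s = s) (ha : a s = s) (hy : s < y s)
    (hz : s < z s) : False := by
  have e1 : z (b s) = x (z s) := by have := h.r2 s; rwa [hx] at this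
  have h1 : s < x (z s) := by
    have := (x.lt_iff_lt).mpr hz; rwa [hx] at this
  have h2 : s < z (b s) := by rw [e1]; exact h1
  have h3 : y (b s) ≤ s := h.dy.up s hy
  have h4 : z.symm s < b s := by rw [← z.lt_iff_lt]; simpa using h2
  have h5 : y (z.symm s) < s := lt_of_lt_of_le ((y.lt_iff_lt).mpr h4) h3
  have e2 : z (y (z.symm s)) = y s := by
    have := h.r1 (z.symm s)
    rw [z.apply_symm_apply, ha] at this
    exact this.symm
  have h6 : y s < z s := by
    rw [← e2]; exact (z.lt_iff_lt).mpr h5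
  have h7 : y s < z (y s) := lt_trans h6 ((z.lt_iff_lt).mpr hy)
  have h8 : z (c (y s)) ≤ y s := h.dz.up (y s) h7
  have e3 : x (c (y s)) = y s := by have := h.r3 s; rwa [hx] at this
  have h9 : s < c (y s) := by
    rw [← x.lt_iff_lt, hx, e3]; exact hy
  have h10 : z s < z (c (y s)) := (z.lt_iff_lt).mpr h9
  exact absurd (lt_of_lt_of_le h10 h8) (not_lt.mpr h6.le)

theorem ocaseA' (h : OSys x y z a b c) {s : X} (hx : x s = s) (ha : a s = s) (hy : y s < s)
    (hz : z s < s) : False :=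
  ocaseA (X := Xᵒᵈ) h.dual (s := s) hx ha hy hz

theorem ocaseB (h : OSys x y z a b c) {s : X} (hx : x s = s) (hy : s < y s) (hz : z s < s) :
    False := by
  have e3 : c (y s) = x.symm (y s) := by
    have := h.r3 s
    rw [hx] at this
    rw [← x.injective.eq_iff, x.apply_symm_apply]; exact this
  have e2 : x.symm (z s) = z (x.symm (b.symm s)) := by
    rw [← x.injective.eq_iff, x.apply_symm_apply, ← h.r2, x.apply_symm_apply, b.apply_symm_apply]
  have h1 : y s ≤ b.symm s := h.dy.inv_le hy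
  have h2 : c (y s) ≤ x.symm (b.symm s) := by rw [e3]; exact x.symm.monotone h1
  have h3 : z (c (y s)) ≤ x.symm (z s) := by rw [e2]; exact z.monotone h2
  have h4 : x.symm (z s) < s := by
    rw [← symm_fix hx]
    rw [symm_fix hx]
    have := (x.symm.lt_iff_lt).mpr hz
    rwa [symm_fix hx] at this
  have h5 : s < z (c (y s)) := by
    rcases lt_trichotomy (z (y s)) (y s) with h6 | h6 | h6
    · exact lt_of_lt_of_le hy (h.dz.down _ h6)
    · rw [h.dz.fix _ h6, h6]; exact hy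
    · obtain ⟨t, t1, t2, t3⟩ := ivt z hy.le hz.le h6
      have h7 : s < t := by
        refine lt_of_le_of_ne t1 fun e => ?_
        rw [← e] at t3; exact absurd t3 hz.ne
      have h8 := h.dz.fix t t3
      have h9 : z (c t) < z (c (y s)) := (z.lt_iff_lt).mpr ((c.lt_iff_lt).mpr t2)
      rw [h8, t3] at h9
      exact h7.trans h9
  exact absurd (lt_of_lt_of_le h5 h3) (not_lt.mpr h4.le)

theorem ocaseB' (h : OSys x y z a b c) {s : X} (hx : x s = s) (hy : y s < s) (hz : s < z s) :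
    False :=
  ocaseB (X := Xᵒᵈ) h.dual (s := s) hx hy hz

theorem ofixz (h : OSys x y z a b c) {s : X} (hx : x s = s) (hy : y s = s) : z s = s := by
  have e3 : x (c s) = s := by have := h.r3 s; rw [hx, hy] at this; exact this
  have e4 : c s = s := x.injective (by rw [e3, hx])
  rcases lt_trichotomy (z s) s with h1 | h1 | h1
  · have := h.dz.down s h1
    rw [e4] at this
    exact absurd h1 (not_lt.mpr this)
  · exact h1
  · have := h.dz.up s h1
    rw [e4] at this
    exact absurd h1 (not_lt.mpr this)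

theorem ofixy (h : OSys x y z a b c) {s : X} (hx : x s = s) (hz : z s = s) : y s = s := by
  have e3 : z (b s) = s := by have := h.r2 s; rw [hx, hz, hx] at this; exact this
  have e4 : b s = s := z.injective (by rw [e3, hz])
  rcases lt_trichotomy (y s) s with h1 | h1 | h1
  · have := h.dy.down s h1
    rw [e4] at this
    exact absurd h1 (not_lt.mpr this)
  · exact h1
  · have := h.dy.up s h1
    rw [e4] at this
    exact absurd h1 (not_lt.mpr this)

/-- A common fixed point of `x` and its longitude is a fixed point of `y` and `z`. -/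
theorem ofix (h : OSys x y z a b c) {s : X} (hx : x s = s) (ha : a s = s) :
    y s = s ∧ z s = s := by
  rcases lt_trichotomy (y s) s with h1 | h1 | h1
  · rcases lt_trichotomy (z s) s with h2 | h2 | h2
    · exact (ocaseA' h hx ha h1 h2).elim
    · exact absurd (ofixy h hx h2) h1.ne
    · exact (ocaseB' h hx h1 h2).elim
  · exact ⟨h1, ofixz h hx h1⟩
  · rcases lt_trichotomy (z s) s with h2 | h2 | h2
    · exact (ocaseB h hx h1 h2).elim
    · exact absurd (ofixy h hx h2) h1.ne'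
    · exact (ocaseA h hx ha h1 h2).elim

end openc

end Pool.Agent.R649.BT
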