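import Pool.Agent.R649.BT.Dyn

set_option autoImplicit false

/-!
# Pieces with one cusp
-/

namespace Pool.Agent.R649.BT

open Pool.Agent.W705.Borr

universe u v

section restr
variable {X : Type u} [CompleteLinearOrder X]

/-- Restriction to an invariant interval. -/
def restr {G : Type v} [Group G] (ρ : G →* (X ≃o X)) {α β : X} (hα : ∀ g, ρ g α = α)
    (hβ : ∀ g, ρ g β = β) : G →* (Set.Icc α β ≃o Set.Icc α β) where
  toFun g :=
    { toFun := fun z => ⟨ρ g z.1, by
        have := (ρ g).le_iff_le.mpr z.2.1; rwa [hα] at this, by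
        have := (ρ g).le_iff_le.mpr z.2.2; rwa [hβ] at this⟩
      invFun := fun z => ⟨ρ g⁻¹ z.1, by
        have := (ρ g⁻¹).le_iff_le.mpr z.2.1; rwa [hα] at this, by
        have := (ρ g⁻¹).le_iff_le.mpr z.2.2; rwa [hβ] at this⟩
      left_inv := fun z => by
        apply Subtype.ext
        show ρ g⁻¹ (ρ g z.1) = z.1
        rw [← RelIso.mul_apply, ← map_mul, inv_mul_cancel, map_one]; rfl
      right_inv := fun z => by
        apply Subtype.ext
        show ρ g (ρ g⁻¹ z.1) = z.1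
        rw [← RelIso.mul_apply, ← map_mul, mul_inv_cancel, map_one]; rfl
      map_rel_iff' := fun {z w} => (ρ g).le_iff_le (x := z.1) (y := w.1) }
  map_one' := by
    ext z
    show ρ 1 z.1 = z.1
    rw [map_one]; rfl
  map_mul' g h := by
    ext z
    show ρ (g * h) z.1 = ρ g (ρ h z.1)
    rw [map_mul]; rfl

end restr

/-- A group with a commuting pair `x, a`, such that in order preserving actions on complete linear
orders common fixed points of `x` and `a` are global fixed points, and such that the action is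
trivial if `x, a` satisfy the dominance condition. -/
structure Piece (G : Type v) [Group G] (x a : G) : Prop where
  comm : Commute x a
  fix : ∀ (X : Type u) [CompleteLinearOrder X] (ρ : G →* (X ≃o X)) (p : X), ρ x p = p →
    ρ a p = p → ∀ g, ρ g p = p
  closed : ∀ (X : Type u) [CompleteLinearOrder X] (ρ : G →* (X ≃o X)), Dom (ρ x) (ρ a) →
    ∀ g p, ρ g p = p

/-- What is needed for gluing. -/
structure Tame (G : Type v) [Group G] (x a : G) : Prop where
  comm : Commute x a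
  dom : ∀ (X : Type u) [CompleteLinearOrder X] (ρ : G →* (X ≃o X)) (A B C D : ℤ),
    Good A B C D → Dom (ρ (x ^ A * a ^ B)) (ρ (x ^ C * a ^ D))
  fix : ∀ (X : Type u) [CompleteLinearOrder X] (ρ : G →* (X ≃o X)) (A B C D : ℤ),
    Good A B C D → ∀ p, ρ (x ^ A * a ^ B) p = p → ∀ g, ρ g p = p

variable {G : Type v} [Group G] {x a : G}

theorem Piece.no (h : Piece.{u} G x a) {X : Type u} [CompleteLinearOrder X]
    (ρ : G →* (X ≃o X)) {α β v : X} (hα : ∀ g, ρ g α = α) (hβ : ∀ g, ρ g β = β) (h1 : α < v)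
    (h2 : v < β)
    (hh : (Up α β (ρ x) ∧ Dn α β (ρ x * ρ a)) ∨ (Dn α β (ρ x) ∧ Up α β (ρ x * ρ a))) : False := by
  haveI : Fact (α ≤ β) := ⟨(h1.trans h2).le⟩
  let ρ' : G →* (Set.Icc α β ≃o Set.Icc α β) := restr ρ hα hβ
  have ends : ∀ z : Set.Icc α β, (α < z.1 ∧ z.1 < β) ∨ ∀ g, ρ' g z = z := by
    intro z
    rcases eq_or_lt_of_le z.2.1 with he | hl
    · right; intro g
      apply Subtype.ext
      show ρ g z.1 = z.1
      rw [← he, hα]
    · rcases eq_or_lt_of_le z.2.2 with he | hr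
      · right; intro g
        apply Subtype.ext
        show ρ g z.1 = z.1
        rw [he, hβ]
      · exact Or.inl ⟨hl, hr⟩
  have hcc : ∀ z : X, ρ x (ρ a z) = ρ a (ρ x z) := by
    intro z
    rw [← RelIso.mul_apply, ← RelIso.mul_apply, ← map_mul, ← map_mul, h.comm.eq]
  have hd : Dom (ρ' x) (ρ' a) := by
    refine ⟨fun z => Subtype.ext (hcc z.1), fun z hz => ?_, fun z hz => ?_, fun z hz => ?_⟩
    · rcases ends z with he | he
      · rcases hh with ⟨u1, u2⟩ | ⟨u1, u2⟩
        · exact (u2 z.1 he.1 he.2).le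
        · have hz' : z.1 < ρ x z.1 := hz
          exact absurd (u1 z.1 he.1 he.2) (not_lt.mpr hz'.le)
      · rw [he] at hz; exact absurd hz (lt_irrefl _)
    · rcases ends z with he | he
      · rcases hh with ⟨u1, u2⟩ | ⟨u1, u2⟩
        · have hz' : ρ x z.1 < z.1 := hz
          exact absurd (u1 z.1 he.1 he.2) (not_lt.mpr hz'.le)
        · exact (u2 z.1 he.1 he.2).le
      · rw [he] at hz; exact absurd hz (lt_irrefl _)
    · rcases ends z with he | he
      · have hz' : ρ x z.1 = z.1 := congrArg Subtype.val hz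
        rcases hh with ⟨u1, u2⟩ | ⟨u1, u2⟩
        · exact absurd hz' (u1 z.1 he.1 he.2).ne'
        · exact absurd hz' (u1 z.1 he.1 he.2).ne
      · exact he a
  have h3 := h.closed (Set.Icc α β) ρ' hd x ⟨v, h1.le, h2.le⟩
  have h4 : ρ x v = v := congrArg Subtype.val h3
  rcases hh with ⟨u1, u2⟩ | ⟨u1, u2⟩
  · exact absurd h4 (u1 v h1 h2).ne'
  · exact absurd h4 (u1 v h1 h2).ne

theorem Piece.key (h : Piece.{u} G x a) {X : Type u} [CompleteLinearOrder X]
    (ρ : G →* (X ≃o X)) {A B C D : ℤ} (hG : Good A B C D) (v : X) :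
    (∀ g, ρ g v = v) ∨
    (v < ρ (x ^ A * a ^ B) v ∧ ρ ((x ^ A * a ^ B) * (x ^ C * a ^ D)) v < v) ∨
    (ρ (x ^ A * a ^ B) v < v ∧ v < ρ ((x ^ A * a ^ B) * (x ^ C * a ^ D)) v) := by
  by_cases hv : ∀ g, ρ g v = v
  · exact Or.inl hv
  right
  set S : Set X := {p | p ≤ v ∧ ∀ g, ρ g p = p} with hS
  set T : Set X := {p | v ≤ p ∧ ∀ g, ρ g p = p} with hT
  have hα : ∀ g, ρ g (sSup S) = sSup S := fun g => by
    refine sSup_fix (ρ g) (fun w hw => ?_) (fun w hw => ?_)
    · rw [hw.2]; exact hw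
    · rw [symm_fix (hw.2 g)]; exact hw
  have hβ : ∀ g, ρ g (sInf T) = sInf T := fun g => by
    refine sInf_fix (ρ g) (fun w hw => ?_) (fun w hw => ?_)
    · rw [hw.2]; exact hw
    · rw [symm_fix (hw.2 g)]; exact hw
  have h1 : sSup S < v := by
    refine lt_of_le_of_ne (sSup_le fun w hw => hw.1) fun e => ?_
    rw [e] at hα; exact hv hα
  have h2 : v < sInf T := by
    refine lt_of_le_of_ne (le_sInf fun w hw => hw.1) fun e => ?_
    rw [← e] at hβ; exact hv hβ
  have hc : Commute (ρ x) (ρ a) := by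
    show _ * _ = _ * _
    rw [← map_mul, h.comm.eq, map_mul]
  have nc : ∀ w, sSup S < w → w < sInf T → ρ x w = w → ρ a w ≠ w := by
    intro w w1 w2 w3 w4
    have w5 := h.fix X ρ w w3 w4
    rcases le_total w v with w6 | w6
    · exact absurd (le_sSup (show w ∈ S from ⟨w6, w5⟩)) (not_le.mpr w1)
    · exact absurd (sInf_le (show w ∈ T from ⟨w6, w5⟩)) (not_le.mpr w2)
  have := wedge hc (hα x) (hβ x) (hα a) (hβ a) nc
    (fun u1 u2 => h.no ρ hα hβ h1 h2 (Or.inl ⟨u1, u2⟩))
    (fun u1 u2 => h.no ρ hα hβ h1 h2 (Or.inr ⟨u1, u2⟩)) hG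
  have e1 : ρ (x ^ A * a ^ B) = ρ x ^ A * ρ a ^ B := by rw [map_mul, map_zpow, map_zpow]
  have e2 : ρ ((x ^ A * a ^ B) * (x ^ C * a ^ D)) =
      (ρ x ^ A * ρ a ^ B) * (ρ x ^ C * ρ a ^ D) := by
    rw [map_mul, map_mul, map_mul, map_zpow, map_zpow, map_zpow, map_zpow]
  rw [e1, e2]
  rcases this with ⟨u1, u2⟩ | ⟨u1, u2⟩
  · exact Or.inl ⟨u1 v h1 h2, u2 v h1 h2⟩
  · exact Or.inr ⟨u1 v h1 h2, u2 v h1 h2⟩

theorem Piece.tame (h : Piece.{u} G x a) : Tame.{u} G x a := by
  refine ⟨h.comm, fun X _ ρ A B C D hG => ?_, fun X _ ρ A B C D hG p hp => ?_⟩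
  · have hcw : Commute (x ^ A * a ^ B) (x ^ C * a ^ D) := by
      have c1 : Commute (x ^ A) (x ^ C * a ^ D) :=
        ((Commute.refl x).zpow_zpow A C).mul_right (h.comm.zpow_zpow A D)
      have c2 : Commute (a ^ B) (x ^ C * a ^ D) :=
        (h.comm.symm.zpow_zpow B C).mul_right ((Commute.refl a).zpow_zpow B D)
      exact c1.mul_left c2
    have em : ∀ v, ρ (x ^ A * a ^ B) (ρ (x ^ C * a ^ D) v) =
        ρ ((x ^ A * a ^ B) * (x ^ C * a ^ D)) v := by
      intro v; rw [map_mul ρ (x ^ A * a ^ B)]; rfl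
    refine ⟨fun v => ?_, fun v hv => ?_, fun v hv => ?_, fun v hv => ?_⟩
    · rw [em, hcw.eq, map_mul]; rfl
    · rcases h.key ρ hG v with k | k | k
      · rw [k] at hv; exact absurd hv (lt_irrefl _)
      · rw [em]; exact k.2.le
      · exact absurd hv (not_lt.mpr k.1.le)
    · rcases h.key ρ hG v with k | k | k
      · rw [k] at hv; exact absurd hv (lt_irrefl _)
      · exact absurd hv (not_lt.mpr k.1.le)
      · rw [em]; exact k.2.le
    · rcases h.key ρ hG v with k | k | k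
      · exact k _
      · exact absurd hv k.1.ne'
      · exact absurd hv k.1.ne
  · rcases h.key ρ hG p with k | k | k
    · exact k
    · exact absurd hp k.1.ne'
    · exact absurd hp k.1.ne

/-! ### Solid tori -/

section solid
variable {X : Type u} [CompleteLinearOrder X]

theorem iter_eq_pow (g : X ≃o X) (n : ℕ) (v : X) : g^[n] v = (g ^ n) v := by
  induction n generalizing v with
  | zero => rfl
  | succ n ih =>
    rw [Function.iterate_succ_apply, ih, pow_succ]; rfl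

theorem dom_solid {x a : X ≃o X} (hc : Commute x a) {p q : ℤ} (hq : 1 ≤ q) (hp : q ≤ p)
    (hr : x ^ p * a ^ q = 1) : Dom x a := by
  obtain ⟨p, rfl⟩ := Int.eq_ofNat_of_zero_le (show 0 ≤ p by omega)
  obtain ⟨q, rfl⟩ := Int.eq_ofNat_of_zero_le (show 0 ≤ q by omega)
  refine dom_of_rel (p := p) (q := q) (fun v => DFunLike.congr_fun hc.eq v) (by omega)
    (by omega) fun v => ?_
  rw [iter_eq_pow, iter_eq_pow]
  have h1 := DFunLike.congr_fun hr v
  rw [zpow_natCast, zpow_natCast] at h1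
  exact h1

theorem dom_conj {x a : X ≃o X} (h : Dom x a) (g : X ≃o X) :
    Dom (g * x * g⁻¹) (g * a * g⁻¹) := by
  have e : ∀ v, g⁻¹ (g v) = v := fun v => g.symm_apply_apply v
  have e' : ∀ v, g (g⁻¹ v) = v := fun v => g.apply_symm_apply v
  have s : ∀ v, (g * x * g⁻¹) ((g * a * g⁻¹) v) = g (x (a (g⁻¹ v))) := by
    intro v
    show g (x (g⁻¹ (g (a (g⁻¹ v))))) = _
    rw [e]
  refine ⟨fun v => ?_, fun v hv => ?_, fun v hv => ?_, fun v hv => ?_⟩
  · rw [s]
    show _ = g (a (g⁻¹ (g (x (g⁻¹ v)))))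
    rw [e, h.comm]
  · rw [s]
    have hv' : v < g (x (g⁻¹ v)) := hv
    have h1 : g⁻¹ v < x (g⁻¹ v) := by
      rw [← g.lt_iff_lt, e']; exact hv'
    have h2 := g.monotone (h.up _ h1)
    rwa [e'] at h2
  · rw [s]
    have hv' : g (x (g⁻¹ v)) < v := hv
    have h1 : x (g⁻¹ v) < g⁻¹ v := by
      rw [← g.lt_iff_lt, e']; exact hv'
    have h2 := g.monotone (h.down _ h1)
    rwa [e'] at h2
  · have hv' : g (x (g⁻¹ v)) = v := hv
    have h1 : x (g⁻¹ v) = g⁻¹ v := by
      rw [← g.injective.eq_iff, e']; exact hv'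
    show g (a (g⁻¹ v)) = v
    rw [h.fix _ h1, e']

end solid

/-! ### The Borromean rings -/

/-- Three elements of a group, with their longitudes satisfying the relations of the Borromean
rings. -/
structure Bor (G : Type v) [Group G] (x y z a b c : G) : Prop where
  cx : Commute x a
  r1 : y * (a * z) = z * y
  r2 : z * (b * x) = x * z
  r3 : x * (c * y) = y * x

/-- The Borromean relations, two cusps being capped. -/
theorem Bor.piece {x y z a b c : G} (h : Bor G x y z a b c)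
    (cy : ∀ (X : Type u) [CompleteLinearOrder X] (ρ : G →* (X ≃o X)), Dom (ρ y) (ρ b))
    (cz : ∀ (X : Type u) [CompleteLinearOrder X] (ρ : G →* (X ≃o X)), Dom (ρ z) (ρ c))
    (gen : ∀ (X : Type u) [CompleteLinearOrder X] (ρ : G →* (X ≃o X)) (p : X), ρ x p = p →
      ρ y p = p → ρ z p = p → ∀ g, ρ g p = p) : Piece.{u} G x a := by
  have rel : ∀ (X : Type u) [CompleteLinearOrder X] (ρ : G →* (X ≃o X)),
      (∀ v, ρ y (ρ a (ρ z v)) = ρ z (ρ y v)) ∧ (∀ v, ρ z (ρ b (ρ x v)) = ρ x (ρ z v)) ∧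
      (∀ v, ρ x (ρ c (ρ y v)) = ρ y (ρ x v)) := by
    intro X _ ρ
    refine ⟨fun v => ?_, fun v => ?_, fun v => ?_⟩
    · have := congrArg (fun g => ρ g v) h.r1
      simp only [map_mul] at this
      exact this
    · have := congrArg (fun g => ρ g v) h.r2
      simp only [map_mul] at this
      exact this
    · have := congrArg (fun g => ρ g v) h.r3
      simp only [map_mul] at this
      exact this
  refine ⟨h.cx, fun X _ ρ p hp hp' => ?_, fun X _ ρ hd g p => ?_⟩
  · obtain ⟨r1, r2, r3⟩ := rel X ρ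
    have os : OSys (ρ x) (ρ y) (ρ z) (ρ a) (ρ b) (ρ c) := ⟨cy X ρ, cz X ρ, r1, r2, r3⟩
    obtain ⟨hy, hz⟩ := ofix os hp hp'
    exact gen X ρ p hp hy hz
  · obtain ⟨r1, r2, r3⟩ := rel X ρ
    have sys : Sys (ρ x) (ρ y) (ρ z) (ρ a) (ρ b) (ρ c) := ⟨hd, cy X ρ, cz X ρ, r1, r2, r3⟩
    exact gen X ρ p (trivial sys p) (trivial sys.rot p) (trivial sys.rot.rot p) g

/-- Conjugation of the marked pair. -/
theorem Piece.conj (h : Piece.{u} G x a) (k : G) : Piece.{u} G (k * x * k⁻¹) (k * a * k⁻¹) := by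
  refine ⟨?_, fun X _ ρ p hp hp' g => ?_, fun X _ ρ hd => ?_⟩
  · show _ * _ = _ * _
    calc k * x * k⁻¹ * (k * a * k⁻¹) = k * (x * a) * k⁻¹ := by group
      _ = k * (a * x) * k⁻¹ := by rw [h.comm.eq]
      _ = _ := by group
  · have e' : ∀ v, ρ k ((ρ k)⁻¹ v) = v := fun v => (ρ k).apply_symm_apply v
    have h1 : ∀ t, ρ (k * t * k⁻¹) p = p → ρ t ((ρ k)⁻¹ p) = (ρ k)⁻¹ p := by
      intro t ht
      rw [map_mul, map_mul, map_inv] at ht
      have ht' : ρ k (ρ t ((ρ k)⁻¹ p)) = p := ht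
      rw [← (ρ k).injective.eq_iff, e', ht']
    have h3 := h.fix X ρ _ (h1 x hp) (h1 a hp')
    have h4 : (ρ k)⁻¹ p = p := by
      have := h3 k
      rw [e'] at this
      exact this.symm
    have h5 := h3 g
    rwa [h4] at h5
  · refine h.closed X ρ ?_
    have h1 := dom_conj hd (ρ k)⁻¹
    have e : ∀ t, (ρ k)⁻¹ * ρ (k * t * k⁻¹) * ((ρ k)⁻¹)⁻¹ = ρ t := by
      intro t
      rw [map_mul, map_mul, map_inv]; group
    rw [e, e] at h1
    exact h1

end Pool.Agent.R649.BT
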