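import Pool.Agent.TH335.LS.Net
import Pool.Agent.R649.BT.Piece

set_option autoImplicit false

/-!
# Alternating links and a circle around three strands: the open cusp
-/

namespace Pool.Agent.R649.BT

open Pool.Agent.TH335.LS (Sys)

universe u

section core
variable {X : Type u} [CompleteLinearOrder X]

/-- The relations and the sign conditions, without conditions on `t, t1`. -/
structure ESys (x y x' y' m t t1 : X ≃o X) : Prop where
  rx : ∀ r, x' (m (x r)) = m r
  ry : ∀ r, y' (m (y r)) = m r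
  pp : ∀ r, r ≤ x r → r ≤ y r → r ≤ x' r ∧ r ≤ y' r
  nn : ∀ r, x r ≤ r → y r ≤ r → x' r ≤ r ∧ y' r ≤ r
  pn : ∀ r, r ≤ x' r → y' r ≤ r → r ≤ x r ∧ y r ≤ r
  np : ∀ r, x' r ≤ r → r ≤ y' r → x r ≤ r ∧ r ≤ y r
  ht : ∀ r, y' (t r) = x' (m r)
  ht1 : ∀ r s, y' s = m r → t1 r = x' s

variable {x y x' y' m t t1 : X ≃o X}

theorem ESys.dual (h : ESys x y x' y' m t t1) :
    ESys (X := Xᵒᵈ) x.dual y.dual x'.dual y'.dual m.dual t.dual t1.dual :=
  ⟨h.rx, h.ry, h.nn, h.pp, h.np, h.pn, h.ht, h.ht1⟩

theorem ESys.no_pp (h : ESys x y x' y' m t t1) {s : X} (ht : t s = s) (ht1 : t1 s = s)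
    (h1 : s < x' s) (h2 : s < y' s) : False := by
  have e1 : y' s = x' (m s) := by have := h.ht s; rwa [ht] at this
  have e2 : x'.symm s = y'.symm (m s) := by
    have := h.ht1 s (y'.symm (m s)) (y'.apply_symm_apply _)
    rw [ht1] at this
    rw [x'.symm_apply_eq]; exact this
  have e3 : y' (x'.symm s) = m s := by rw [e2, y'.apply_symm_apply]
  set n := m.symm s with hn
  have mn : m n = s := m.apply_symm_apply s
  set k := x.symm s with hk
  have xk : x k = s := x.apply_symm_apply s
  -- `x n = y s`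
  have E1 : x n = y s := by
    have a1 := h.rx n
    rw [mn] at a1
    have a2 : m (x n) = x'.symm s := by rw [← x'.injective.eq_iff, a1, x'.apply_symm_apply]
    have a3 : y' (m (x n)) = m s := by rw [a2, e3]
    have a4 := h.ry s
    exact m.injective (y'.injective (a3.trans a4.symm))
  -- `y k = n`
  have E2 : y k = n := by
    have a1 := h.rx k
    rw [xk] at a1
    have a2 := h.ry k
    rw [← a1, ← e1] at a2
    have a3 : m (y k) = s := y'.injective a2
    exact m.injective (a3.trans mn.symm)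
  have n2 : y n < n := by
    have a := h.ry n
    rw [mn] at a
    have b : m (y n) < m n := by
      rw [mn, ← y'.lt_iff_lt, a]; exact h2
    exact m.lt_iff_lt.mp b
  have nk : n < k := by
    have : y n < y k := by rw [E2]; exact n2
    exact y.lt_iff_lt.mp this
  have ys : y s < s := by
    rw [← E1]
    have := x.lt_iff_lt.mpr nk
    rwa [xk] at this
  rcases le_total (x s) s with h3 | h3
  · exact absurd (h.nn s h3 ys.le).1 (not_le.mpr h1)
  · have a1 : x' (m s) ≤ m s := by
      have b1 := x'.monotone (m.monotone h3)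
      rwa [h.rx] at b1
    have a2 : m s < x' (m s) := by
      rw [← e1, ← e3]
      refine y'.lt_iff_lt.mpr ?_
      rw [← x'.lt_iff_lt, x'.apply_symm_apply]; exact h1
    exact absurd a2 (not_lt.mpr a1)

theorem ESys.no_nn (h : ESys x y x' y' m t t1) {s : X} (ht : t s = s) (ht1 : t1 s = s)
    (h1 : x' s < s) (h2 : y' s < s) : False :=
  ESys.no_pp (X := Xᵒᵈ) h.dual (s := s) ht ht1 h1 h2

theorem ESys.all_pn (h : ESys x y x' y' m t t1) {s : X} (ht : t s = s) (ht1 : t1 s = s)
    (h1 : s ≤ x' s) (h2 : y' s ≤ s) : x' s = s ∧ y' s = s ∧ m s = s ∧ x s = s ∧ y s = s := by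
  have e1 : y' s = x' (m s) := by have := h.ht s; rwa [ht] at this
  have e2 : x'.symm s = y'.symm (m s) := by
    have := h.ht1 s (y'.symm (m s)) (y'.apply_symm_apply _)
    rw [ht1] at this
    rw [x'.symm_apply_eq]; exact this
  have e3 : y' (x'.symm s) = m s := by rw [e2, y'.apply_symm_apply]
  obtain ⟨l1, l2⟩ := h.pn s h1 h2
  have a1 : x' (m s) ≤ m s := by
    have b1 := x'.monotone (m.monotone l1)
    rwa [h.rx] at b1
  have a2 : m s ≤ y' (m s) := by
    have b1 := y'.monotone (m.monotone l2)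
    rwa [h.ry] at b1
  have a3 : x'.symm s ≤ m s := by
    rw [← y'.le_iff_le, e3]; exact a2
  have a4 : s ≤ x' (m s) := by
    have := x'.monotone a3
    rwa [x'.apply_symm_apply] at this
  have a5 : y' s = s := le_antisymm h2 (by rw [e1]; exact a4)
  have a6 : x'.symm s ≤ s := by
    rw [← x'.le_iff_le, x'.apply_symm_apply]; exact h1
  have a7 : m s ≤ s := by
    rw [← e3]
    refine (y'.monotone a6).trans ?_
    rw [a5]
  have a8 : m s = s := le_antisymm a7 (a4.trans a1)
  have a9 : x' s = s := by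
    rw [a8, a5] at e1; exact e1.symm
  refine ⟨a9, a5, a8, ?_, ?_⟩
  · have b := h.rx s
    rw [a8] at b
    have b1 : m (x s) = s := x'.injective (b.trans a9.symm)
    exact m.injective (b1.trans a8.symm)
  · have b := h.ry s
    rw [a8] at b
    have b1 : m (y s) = s := y'.injective (b.trans a5.symm)
    exact m.injective (b1.trans a8.symm)

/-- A common fixed point of `t` and `t1` is fixed by everything. -/
theorem ESys.fixT (h : ESys x y x' y' m t t1) {s : X} (ht : t s = s) (ht1 : t1 s = s) :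
    x' s = s ∧ y' s = s ∧ m s = s ∧ x s = s ∧ y s = s := by
  rcases le_total (x' s) s with h1 | h1
  · rcases le_total (y' s) s with h2 | h2
    · rcases eq_or_lt_of_le h1 with h3 | h3
      · exact h.all_pn ht ht1 h3.ge h2
      · rcases eq_or_lt_of_le h2 with h4 | h4
        · exact ESys.all_pn (X := Xᵒᵈ) h.dual (s := s) ht ht1 h1 h4.ge
        · exact (h.no_nn ht ht1 h3 h4).elim
    · exact ESys.all_pn (X := Xᵒᵈ) h.dual (s := s) ht ht1 h1 h2
  · rcases le_total (y' s) s with h2 | h2
    · exact h.all_pn ht ht1 h1 h2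
    · rcases eq_or_lt_of_le h1 with h3 | h3
      · exact ESys.all_pn (X := Xᵒᵈ) h.dual (s := s) ht ht1 h3.ge h2
      · rcases eq_or_lt_of_le h2 with h4 | h4
        · exact h.all_pn ht ht1 h1 h4.ge
        · exact (h.no_pp ht ht1 h3 h4).elim

theorem ESys.toSys (h : ESys x y x' y' m t t1) (up : ∀ r, ¬ (r < t r ∧ r < t1 r))
    (down : ∀ r, ¬ (t r < r ∧ t1 r < r)) : Sys x y x' y' m t t1 :=
  ⟨h.rx, h.ry, h.pp, h.nn, h.pn, h.np, h.ht, h.ht1, up, down⟩

end core

end Pool.Agent.R649.BT
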