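import Pool.Agent.R649.BT.Blocks2

set_option autoImplicit false

/-!
# Caps
-/

namespace Pool.Agent.R649.BT

universe u v

/-- What is needed for gluing a piece with marked pair `x, e`. -/
structure TameE (G : Type v) [Group G] (x e : G) : Prop where
  comm : Commute x e
  scap : ∀ (X : Type u) [CompleteLinearOrder X] (ρ : G →* (X ≃o X)) (A B C D : ℕ),
    1 ≤ A → 1 ≤ B → 1 ≤ C → 1 ≤ D → SCap (ρ (x ^ A * e ^ B)) (ρ (x ^ C * e ^ D)⁻¹)
  fix : ∀ (X : Type u) [CompleteLinearOrder X] (ρ : G →* (X ≃o X)) (A B : ℕ),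
    1 ≤ A → 1 ≤ B → ∀ p, ρ (x ^ A * e ^ B) p = p → ∀ g, ρ g p = p

theorem Piece.tameE {G : Type v} [Group G] {x e : G} (hc : Commute x e)
    (h : Piece.{u} G x (x⁻¹ * e)) : TameE.{u} G x e := by
  have key : ∀ (X : Type u) [CompleteLinearOrder X] (ρ : G →* (X ≃o X)) (A B C D : ℕ),
      1 ≤ A → 1 ≤ B → 1 ≤ C → 1 ≤ D → ∀ v, (∀ g, ρ g v = v) ∨
      (v < ρ (x ^ A * e ^ B) v ∧ ρ (x ^ C * e ^ D)⁻¹ v < v) ∨
      (ρ (x ^ A * e ^ B) v < v ∧ v < ρ (x ^ C * e ^ D)⁻¹ v) := by
    intro X _ ρ A B C D hA hB hC hD v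
    have hG : Good ((A : ℤ) + B) B (-((A : ℤ) + B + C + D)) (-((B : ℤ) + D)) := by
      left
      refine ⟨by omega, by omega, by omega, by omega⟩
    have k := h.key ρ hG v
    have w : ∀ i j : ℤ, x ^ i * (x⁻¹ * e) ^ j = x ^ (i - j) * e ^ j := by
      intro i j
      rw [(hc.inv_left).mul_zpow, ← mul_assoc, inv_zpow, ← zpow_neg, ← zpow_add]
      rfl
    have e1 : x ^ ((A : ℤ) + B) * (x⁻¹ * e) ^ (B : ℤ) = x ^ A * e ^ B := by
      rw [w]
      have : (A : ℤ) + B - B = A := by ring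
      rw [this, zpow_natCast, zpow_natCast]
    have e2 : (x ^ ((A : ℤ) + B) * (x⁻¹ * e) ^ (B : ℤ)) *
        (x ^ (-((A : ℤ) + B + C + D)) * (x⁻¹ * e) ^ (-((B : ℤ) + D))) = (x ^ C * e ^ D)⁻¹ := by
      rw [w, w]
      have c1 : Commute (e ^ (B : ℤ)) (x ^ (-((A : ℤ) + B + C + D) - -((B : ℤ) + D))) :=
        (hc.symm.zpow_left _).zpow_right _
      have a1 : (A : ℤ) + B - B + (-((A : ℤ) + B + C + D) - -((B : ℤ) + D)) = -(C : ℤ) := by ring
      have a2 : (B : ℤ) + -((B : ℤ) + D) = -(D : ℤ) := by ring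
      calc x ^ ((A : ℤ) + B - B) * e ^ (B : ℤ) *
            (x ^ (-((A : ℤ) + B + C + D) - -((B : ℤ) + D)) * e ^ (-((B : ℤ) + D)))
          = x ^ ((A : ℤ) + B - B) * (e ^ (B : ℤ) *
            x ^ (-((A : ℤ) + B + C + D) - -((B : ℤ) + D))) * e ^ (-((B : ℤ) + D)) := by
              simp only [mul_assoc]
        _ = x ^ ((A : ℤ) + B - B) * (x ^ (-((A : ℤ) + B + C + D) - -((B : ℤ) + D)) *
            e ^ (B : ℤ)) * e ^ (-((B : ℤ) + D)) := by rw [c1.eq]
        _ = x ^ ((A : ℤ) + B - B + (-((A : ℤ) + B + C + D) - -((B : ℤ) + D))) *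
            e ^ ((B : ℤ) + -((B : ℤ) + D)) := by
              rw [zpow_add x ((A : ℤ) + B - B), zpow_add e (B : ℤ)]
              simp only [mul_assoc]
        _ = x ^ (-(C : ℤ)) * e ^ (-(D : ℤ)) := by rw [a1, a2]
        _ = (x ^ C * e ^ D)⁻¹ := by
              rw [(hc.pow_pow C D).eq, mul_inv_rev, zpow_neg, zpow_neg, zpow_natCast,
                zpow_natCast]
    rw [e2] at k
    rw [e1] at k
    exact k
  refine ⟨hc, fun X _ ρ A B C D hA hB hC hD => ?_, fun X _ ρ A B hA hB p hp => ?_⟩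
  · have hk := key X ρ A B C D hA hB hC hD
    have hcc : Commute (x ^ A * e ^ B) (x ^ C * e ^ D)⁻¹ := by
      refine Commute.inv_right ?_
      have c1 : Commute (x ^ A) (x ^ C * e ^ D) :=
        ((Commute.refl x).pow_pow A C).mul_right (hc.pow_pow A D)
      have c2 : Commute (e ^ B) (x ^ C * e ^ D) :=
        (hc.symm.pow_pow B C).mul_right ((Commute.refl e).pow_pow B D)
      exact c1.mul_left c2
    refine ⟨fun v => ?_, fun v hv => ?_, fun v hv => ?_, fun v hv => ?_⟩
    · rw [← RelIso.mul_apply, ← RelIso.mul_apply, ← map_mul, ← map_mul, hcc.eq]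
    · rcases hk v with k | k | k
      · rw [k] at hv; exact absurd hv (lt_irrefl _)
      · exact k.2
      · exact absurd hv (not_lt.mpr k.1.le)
    · rcases hk v with k | k | k
      · rw [k] at hv; exact absurd hv (lt_irrefl _)
      · exact absurd hv (not_lt.mpr k.1.le)
      · exact k.2
    · rcases hk v with k | k | k
      · exact k _
      · exact absurd hv k.1.ne'
      · exact absurd hv k.1.ne
  · rcases key X ρ A B 1 1 hA hB le_rfl le_rfl p with k | k | k
    · exact k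
    · exact absurd hp k.1.ne'
    · exact absurd hp k.1.ne

section solid
variable {X : Type u} [CompleteLinearOrder X]

open Pool.Agent.W705.Borr in
theorem cap_solid {x e : X ≃o X} (hc : Commute x e) {i j : ℕ} (hj : 1 ≤ j)
    (hr : x ^ i * e ^ j = 1) : Cap x e ∧ (1 ≤ i → SCap x e) := by
  have hd : Dom x (x⁻¹ * e) := by
    refine dom_solid (p := (i : ℤ) + j) (q := j) ((Commute.refl x).inv_right.mul_right hc)
      (by omega) (by omega) ?_
    rw [(hc.inv_left).mul_zpow, ← mul_assoc, inv_zpow, ← zpow_neg, ← zpow_add]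
    have : (i : ℤ) + j + -j = i := by ring
    rw [this, zpow_natCast, zpow_natCast]
    exact hr
  have hcap : Cap x e := by
    have h1 := Cap.of_dom hd
    rwa [mul_inv_cancel_left] at h1
  refine ⟨hcap, fun hi => ⟨hcap.comm, fun v hv => ?_, fun v hv => ?_, hcap.fix⟩⟩
  · refine lt_of_le_of_ne (hcap.up v hv) fun he => ?_
    have h1 : (e ^ j) v = v := by
      have := fix_zpow he (j : ℤ)
      rwa [zpow_natCast] at this
    have h2 : (x ^ i) v = v := by
      have := congrArg (fun g : X ≃o X => g v) hr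
      change (x ^ i) ((e ^ j) v) = v at this
      rwa [h1] at this
    have h3 := iter_lt hv i hi
    rw [iter_eq_pow, h2] at h3
    exact lt_irrefl _ h3
  · refine lt_of_le_of_ne (hcap.down v hv) fun he => ?_
    have h1 : (e ^ j) v = v := by
      have := fix_zpow he.symm (j : ℤ)
      rwa [zpow_natCast] at this
    have h2 : (x ^ i) v = v := by
      have := congrArg (fun g : X ≃o X => g v) hr
      change (x ^ i) ((e ^ j) v) = v at this
      rwa [h1] at this
    have h4 : v < x⁻¹ v := by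
      rw [← x.lt_iff_lt]
      have : x (x⁻¹ v) = v := x.apply_symm_apply v
      rwa [this]
    have h3 := iter_lt h4 i hi
    rw [iter_eq_pow, inv_pow] at h3
    have h5 : (x ^ i)⁻¹ v = v := symm_fix h2
    rw [h5] at h3
    exact lt_irrefl _ h3

end solid

end Pool.Agent.R649.BT
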